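import Pool.Agent.R278.Hom.FreeP

/-!
# Cardinalities
-/

open Set Filter Topology Cardinal
open scoped ENNReal

namespace Pool.Agent.R278.Hom

theorem mk_closure_le {V : Type} [NormedAddCommGroup V] {S : Set V} (hS : #S ≤ 𝔠) :
    #(closure S) ≤ 𝔠 := by
  have h1 : ∀ x : closure S, ∃ u : ℕ → S, Tendsto (fun n => (u n : V)) atTop (𝓝 x) := by
    intro x
    obtain ⟨u, hu1, hu2⟩ := mem_closure_iff_seq_limit.1 x.2
    exact ⟨fun n => ⟨u n, hu1 n⟩, hu2⟩
  choose u hu using h1
  have h2 : Function.Injective u := by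
    intro x y h
    have h3 := hu x
    rw [h] at h3
    exact Subtype.ext (tendsto_nhds_unique h3 (hu y))
  refine (mk_le_of_injective h2).trans ?_
  rw [← power_def]
  refine (power_le_power_right hS).trans ?_
  simp

theorem mk_span_le {V : Type} [NormedAddCommGroup V] [NormedSpace ℝ V] {S : Set V}
    (hS : #S ≤ 𝔠) : #(Submodule.span ℝ S) ≤ 𝔠 := by
  have h1 : ∀ x : Submodule.span ℝ S, ∃ f : S →₀ ℝ, f.sum (fun i a => a • (i : V)) = x := by
    intro x
    have h2 : (x : V) ∈ Submodule.span ℝ (range (fun i : S => (i : V))) := by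
      rw [Subtype.range_coe]
      exact x.2
    exact Finsupp.mem_span_range_iff_exists_finsupp.1 h2
  choose f hf using h1
  have h2 : Function.Injective f := by
    intro x y h
    apply Subtype.ext
    rw [← hf x, ← hf y, h]
  refine (mk_le_of_injective h2).trans ?_
  rcases isEmpty_or_nonempty S with hE | hE
  · have : Subsingleton (S →₀ ℝ) := ⟨fun a b => Finsupp.ext fun i => hE.elim i⟩
    exact (le_one_iff_subsingleton.2 this).trans (one_le_aleph0.trans aleph0_le_continuum)
  · rw [mk_finsupp_of_infinite']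
    exact max_le hS (by rw [mk_real])

theorem mk_cspan_le {V : Type} [NormedAddCommGroup V] [NormedSpace ℝ V] {S : Set V}
    (hS : #S ≤ 𝔠) : #(Submodule.span ℝ S).topologicalClosure ≤ 𝔠 :=
  mk_closure_le (mk_span_le hS)

variable {X : Type} [NormedAddCommGroup X] [NormedSpace ℝ X]

theorem mk_Lt_le (hX : #X ≤ 𝔠) : #(Lt X) ≤ 𝔠 := by
  have h1 : Function.Injective (fun l : Lt X => (List.ofFn l.s, List.ofFn l.v)) := by
    intro l l' h
    rcases l with ⟨n, s, v, iso⟩
    rcases l' with ⟨n', s', v', iso'⟩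
    simp only [Prod.mk.injEq] at h
    have h2 := List.ofFn_inj'.1 h.1
    have h3 := List.ofFn_inj'.1 h.2
    rw [Sigma.mk.injEq] at h2 h3
    obtain ⟨rfl, h4⟩ := h2
    obtain ⟨-, h5⟩ := h3
    rw [heq_eq_eq] at h4 h5
    subst h4
    subst h5
    rfl
  have h2 : #(List X) ≤ 𝔠 := by
    refine (mk_list_le_max X).trans ?_
    exact max_le aleph0_le_continuum hX
  refine (mk_le_of_injective h1).trans ?_
  rw [mk_prod, lift_id]
  refine (mul_le_mul' h2 h2).trans ?_
  simp

open Classical in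
theorem mk_GG_le (hX : #X ≤ 𝔠) : #(GG X) ≤ 𝔠 := by
  refine (mk_le_of_injective (FreeGroup.toWord_injective (α := Lt X))).trans ?_
  refine (mk_list_le_max _).trans ?_
  refine max_le aleph0_le_continuum ?_
  rw [mk_prod, lift_id, lift_id, mk_bool]
  refine (mul_le_mul' (mk_Lt_le hX) le_rfl).trans ?_
  refine (mul_le_mul' le_rfl (natCast_lt_aleph0 (n := 2)).le).trans ?_
  simp

theorem mk_YY_le (hX : #X ≤ 𝔠) : #(YY X) ≤ 𝔠 := by
  refine mk_cspan_le ?_
  refine mk_range_le.trans ?_
  rw [mk_prod, lift_id, lift_id]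
  refine (mul_le_mul' (mk_GG_le hX) hX).trans ?_
  simp

end Pool.Agent.R278.Hom
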