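import Pool.Agent.R278.Hom.Step
import Pool.Agent.R278.Equi.Omega

/-!
# The transfinite chain
-/

open Set Filter Topology Cardinal
open scoped ENNReal

namespace Pool.Agent.R278.Hom

open Pool.Agent.R278.Equi (Om countable_Iio exists_bound)

variable {H : Type} [NormedAddCommGroup H] [NormedSpace ℝ H]

/-- The chain of subspaces. -/
noncomputable def SS (G : Submodule ℝ H → Submodule ℝ H) (Z : Submodule ℝ H) :
    Om → Submodule ℝ H :=
  (wellFounded_lt : WellFounded ((· < ·) : Om → Om → Prop)).fix fun a rec =>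
    (⨆ o : Option (Iio a), o.elim Z fun b => G (rec b.1 b.2)).topologicalClosure

theorem SS_eq (G : Submodule ℝ H → Submodule ℝ H) (Z : Submodule ℝ H) (a : Om) : SS G Z a =
    (⨆ o : Option (Iio a), o.elim Z fun b => G (SS G Z b.1)).topologicalClosure := by
  unfold SS
  rw [WellFounded.fix_eq]

variable {G : Submodule ℝ H → Submodule ℝ H} {Z : Submodule ℝ H}

theorem Z_le (a : Om) : Z ≤ SS G Z a := by
  rw [SS_eq]
  refine le_trans ?_ (Submodule.le_topologicalClosure _)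
  exact le_iSup (fun o : Option (Iio a) => o.elim Z fun b => G (SS G Z b.1)) none

theorem G_le {a b : Om} (h : b < a) : G (SS G Z b) ≤ SS G Z a := by
  rw [SS_eq G Z a]
  refine le_trans ?_ (Submodule.le_topologicalClosure _)
  exact le_iSup (fun o : Option (Iio a) => o.elim Z fun b => G (SS G Z b.1)) (some ⟨b, h⟩)

theorem closed_SS (a : Om) : IsClosed (SS G Z a : Set H) := by
  rw [SS_eq]
  exact Submodule.isClosed_topologicalClosure _

theorem mk_SS (hZ : #Z ≤ 𝔠) (hG : ∀ X : Submodule ℝ H, #X ≤ 𝔠 → #(G X) ≤ 𝔠) (a : Om) :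
    #(SS G Z a) ≤ 𝔠 := by
  induction a using (wellFounded_lt : WellFounded ((· < ·) : Om → Om → Prop)).induction with
  | _ a ih =>
    rw [SS_eq]
    have h1 : (⨆ o : Option (Iio a), o.elim Z fun b => G (SS G Z b.1)) =
        Submodule.span ℝ (⋃ o : Option (Iio a),
          ((o.elim Z fun b => G (SS G Z b.1) : Submodule ℝ H) : Set H)) := by
      rw [Submodule.span_iUnion]
      simp
    rw [h1]
    refine mk_cspan_le ?_
    refine (mk_iUnion_le_sum_mk).trans ?_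
    have h2 : ∀ o : Option (Iio a),
        #((o.elim Z fun b => G (SS G Z b.1) : Submodule ℝ H) : Set H) ≤ 𝔠 := by
      intro o
      cases o with
      | none => exact hZ
      | some b => exact hG _ (ih b.1 b.2)
    refine (sum_le_sum _ _ h2).trans ?_
    rw [sum_const']
    have h3 : #(Option (Iio a)) ≤ 𝔠 := by
      rw [mk_option]
      have h4 : #(Iio a) ≤ ℵ₀ := le_aleph0_iff_set_countable.2 (countable_Iio a)
      refine (add_le_add (h4.trans aleph0_le_continuum)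
        (one_le_aleph0.trans aleph0_le_continuum)).trans ?_
      simp
    refine (mul_le_mul' h3 le_rfl).trans ?_
    simp

section Main

variable (hZ : #Z ≤ 𝔠) (hG : ∀ X : Submodule ℝ H, #X ≤ 𝔠 → StepP X (G X))

include hZ hG

theorem mk_SS' (a : Om) : #(SS G Z a) ≤ 𝔠 := mk_SS hZ (fun X hX => (hG X hX).2.2.1) a

theorem le_G (a : Om) : SS G Z a ≤ G (SS G Z a) := (hG _ (mk_SS' hZ hG a)).1

theorem mono_SS {a b : Om} (h : a ≤ b) : SS G Z a ≤ SS G Z b := by
  rcases h.eq_or_lt with h | h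
  · rw [h]
  · exact (le_G hZ hG a).trans (G_le h)

theorem mono_G {a b : Om} (h : a ≤ b) : G (SS G Z a) ≤ G (SS G Z b) := by
  rcases h.eq_or_lt with h | h
  · rw [h]
  · exact (G_le h).trans (le_G hZ hG b)

theorem directed_opt (a : Om) : Directed (· ≤ ·)
    (fun o : Option (Iio a) => (o.elim Z fun b => G (SS G Z b.1) : Submodule ℝ H)) := by
  have hZG : ∀ b : Om, Z ≤ G (SS G Z b) := fun b => (Z_le b).trans (le_G hZ hG b)
  intro o₁ o₂
  cases o₁ with
  | none =>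
    cases o₂ with
    | none => exact ⟨none, le_rfl, le_rfl⟩
    | some b => exact ⟨some b, hZG _, le_rfl⟩
  | some b =>
    cases o₂ with
    | none => exact ⟨some b, le_rfl, hZG _⟩
    | some c =>
      rcases le_total b.1 c.1 with h | h
      · exact ⟨some c, mono_G hZ hG h, le_rfl⟩
      · exact ⟨some b, le_rfl, mono_G hZ hG h⟩

/-- Freeness along the chain. -/
theorem free_SS {e : ℕ → H} (heZ : ∀ n, e n ∈ Z) (he : ∀ n, ‖e n‖ ≤ 1) (hf : ∀ y ∈ Z, Free e y)
    (a : Om) : ∀ y ∈ SS G Z a, Free e y := by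
  induction a using (wellFounded_lt : WellFounded ((· < ·) : Om → Om → Prop)).induction with
  | _ a ih =>
    intro y hy
    rw [SS_eq] at hy
    have h1 : ((⨆ o : Option (Iio a), o.elim Z fun b => G (SS G Z b.1) : Submodule ℝ H) : Set H) ⊆
        {y | Free e y} := by
      intro z hz
      obtain ⟨o, ho⟩ := (Submodule.mem_iSup_of_directed _ (directed_opt hZ hG a)).1 hz
      cases o with
      | none => exact hf z ho
      | some b =>
        exact (hG _ (mk_SS' hZ hG b.1)).2.2.2.2.2 e (fun n => Z_le b.1 (heZ n)) he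
          (ih b.1 b.2) z ho
    exact closure_minimal h1 (isClosed_free e) hy

/-- The union. -/
theorem mem_union {x : H} : x ∈ (⨆ a, SS G Z a) ↔ ∃ a, x ∈ SS G Z a := by
  have : Nonempty Om := ⟨(exists_bound ∅ countable_empty).choose⟩
  refine Submodule.mem_iSup_of_directed _ ?_
  exact Monotone.directed_le fun a b h => mono_SS hZ hG h

theorem closed_union : IsClosed ((⨆ a, SS G Z a : Submodule ℝ H) : Set H) := by
  rw [← closure_subset_iff_isClosed]
  intro x hx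
  obtain ⟨u, hu1, hu2⟩ := mem_closure_iff_seq_limit.1 hx
  have h1 : ∀ n, ∃ a, u n ∈ SS G Z a := fun n => (mem_union hZ hG).1 (hu1 n)
  choose a ha using h1
  obtain ⟨b, hb⟩ := exists_bound (range a) (countable_range a)
  have h2 : ∀ n, u n ∈ SS G Z b := fun n => mono_SS hZ hG (hb _ ⟨n, rfl⟩).le (ha n)
  exact (mem_union hZ hG).2 ⟨b, (closed_SS b).mem_of_tendsto hu2 (Eventually.of_forall h2)⟩

theorem finite_union {n : ℕ} (w : Fin n → H) (hw : ∀ i, w i ∈ (⨆ a, SS G Z a)) :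
    ∃ a, ∀ i, w i ∈ SS G Z a := by
  have h1 : ∀ i, ∃ a, w i ∈ SS G Z a := fun i => (mem_union hZ hG).1 (hw i)
  choose a ha using h1
  obtain ⟨b, hb⟩ := exists_bound (range a) (countable_range a)
  exact ⟨b, fun i => mono_SS hZ hG (hb _ ⟨i, rfl⟩).le (ha i)⟩

open Classical in
/-- The extended graphs. -/
noncomputable def EX (_ : #Z ≤ 𝔠) (hG : ∀ X : Submodule ℝ H, #X ≤ 𝔠 → StepP X (G X))
    (X : Submodule ℝ H) (Γ : Submodule ℝ (H × H)) : Submodule ℝ (H × H) :=
  if h : #X ≤ 𝔠 ∧ IsoGraph X Γ then ((hG X h.1).2.2.2.1 Γ h.2).choose else ⊥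

theorem EX_spec {X : Submodule ℝ H} {Γ : Submodule ℝ (H × H)} (h1 : #X ≤ 𝔠)
    (h2 : IsoGraph X Γ) : Γ ≤ EX hZ hG X Γ ∧ IsoGraph (G X) (EX hZ hG X Γ) := by
  unfold EX
  rw [dif_pos ⟨h1, h2⟩]
  exact ((hG X h1).2.2.2.1 Γ h2).choose_spec

open Classical in
/-- The chain of graphs. -/
noncomputable def QQ (hZ : #Z ≤ 𝔠) (hG : ∀ X : Submodule ℝ H, #X ≤ 𝔠 → StepP X (G X))
    (a₀ : Om) (Γ₀ : Submodule ℝ (H × H)) : Om → Submodule ℝ (H × H) :=
  (wellFounded_lt : WellFounded ((· < ·) : Om → Om → Prop)).fix fun b rec =>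
    if b = a₀ then Γ₀ else
      EX hZ hG (SS G Z b) (⨆ c : {c : Om // a₀ ≤ c ∧ c < b}, rec c.1 c.2.2).topologicalClosure

open Classical in
theorem QQ_eq (a₀ : Om) (Γ₀ : Submodule ℝ (H × H)) (b : Om) : QQ hZ hG a₀ Γ₀ b =
    if b = a₀ then Γ₀ else
      EX hZ hG (SS G Z b)
        (⨆ c : {c : Om // a₀ ≤ c ∧ c < b}, QQ hZ hG a₀ Γ₀ c.1).topologicalClosure := by
  unfold QQ
  rw [WellFounded.fix_eq]

theorem QQ_spec [CompleteSpace H] {a₀ : Om} {Γ₀ : Submodule ℝ (H × H)}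
    (hΓ : IsoGraph (G (SS G Z a₀)) Γ₀) (b : Om) (hb : a₀ ≤ b) :
    IsoGraph (G (SS G Z b)) (QQ hZ hG a₀ Γ₀ b) ∧
      ∀ c, a₀ ≤ c → c ≤ b → QQ hZ hG a₀ Γ₀ c ≤ QQ hZ hG a₀ Γ₀ b := by
  induction b using (wellFounded_lt : WellFounded ((· < ·) : Om → Om → Prop)).induction with
  | _ b ih =>
    rcases hb.eq_or_lt with h | h
    · subst h
      refine ⟨?_, fun c h1 h2 => ?_⟩
      · rw [QQ_eq, if_pos rfl]
        exact hΓ
      · rw [le_antisymm h2 h1]
    · have hne : Nonempty {c : Om // a₀ ≤ c ∧ c < b} := ⟨⟨a₀, le_rfl, h⟩⟩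
      have hd : Directed (· ≤ ·)
          (fun c : {c : Om // a₀ ≤ c ∧ c < b} => QQ hZ hG a₀ Γ₀ c.1) := by
        intro c d
        rcases le_total c.1 d.1 with h1 | h1
        · exact ⟨d, (ih d.1 d.2.2 d.2.1).2 c.1 c.2.1 h1, le_rfl⟩
        · exact ⟨c, le_rfl, (ih c.1 c.2.2 c.2.1).2 d.1 d.2.1 h1⟩
      have h1 := isoGraph_closure (isoGraph_iSup
        (X := fun c : {c : Om // a₀ ≤ c ∧ c < b} => G (SS G Z c.1))
        (fun c => (ih c.1 c.2.2 c.2.1).1) hd)
      have h2 : (⨆ c : {c : Om // a₀ ≤ c ∧ c < b}, G (SS G Z c.1)).topologicalClosure =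
          SS G Z b := by
        apply le_antisymm
        · refine Submodule.topologicalClosure_minimal _ ?_ (closed_SS b)
          exact iSup_le fun c => G_le c.2.2
        · rw [SS_eq G Z b]
          refine Submodule.topologicalClosure_mono ?_
          refine iSup_le fun o => ?_
          cases o with
          | none =>
            exact ((Z_le a₀).trans (le_G hZ hG a₀)).trans
              (le_iSup (fun c : {c : Om // a₀ ≤ c ∧ c < b} => G (SS G Z c.1)) ⟨a₀, le_rfl, h⟩)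
          | some c =>
            rcases le_total a₀ c.1 with h3 | h3
            · exact le_iSup (fun c : {c : Om // a₀ ≤ c ∧ c < b} => G (SS G Z c.1)) ⟨c.1, h3, c.2⟩
            · exact (mono_G hZ hG h3).trans
                (le_iSup (fun c : {c : Om // a₀ ≤ c ∧ c < b} => G (SS G Z c.1)) ⟨a₀, le_rfl, h⟩)
      rw [h2] at h1
      have h3 := EX_spec hZ hG (mk_SS' hZ hG b) h1
      have h4 : QQ hZ hG a₀ Γ₀ b = EX hZ hG (SS G Z b)
          (⨆ c : {c : Om // a₀ ≤ c ∧ c < b}, QQ hZ hG a₀ Γ₀ c.1).topologicalClosure := by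
        rw [QQ_eq, if_neg h.ne']
      rw [h4]
      refine ⟨h3.2, fun c hc1 hc2 => ?_⟩
      rcases hc2.eq_or_lt with h5 | h5
      · rw [h5, h4]
      · refine le_trans ?_ h3.1
        refine le_trans ?_ (Submodule.le_topologicalClosure _)
        exact le_iSup (fun c : {c : Om // a₀ ≤ c ∧ c < b} => QQ hZ hG a₀ Γ₀ c.1) ⟨c, hc1, h5⟩

/-- Graphs extend to the union. -/
theorem exists_union_graph [CompleteSpace H] {a₀ : Om} {Γ₀ : Submodule ℝ (H × H)}
    (hΓ : IsoGraph (G (SS G Z a₀)) Γ₀) : ∃ Γ, Γ₀ ≤ Γ ∧ IsoGraph (⨆ a, SS G Z a) Γ := by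
  have hne : Nonempty {c : Om // a₀ ≤ c} := ⟨⟨a₀, le_rfl⟩⟩
  have hd : Directed (· ≤ ·) (fun c : {c : Om // a₀ ≤ c} => QQ hZ hG a₀ Γ₀ c.1) := by
    intro c d
    rcases le_total c.1 d.1 with h1 | h1
    · exact ⟨d, (QQ_spec hZ hG hΓ d.1 d.2).2 c.1 c.2 h1, le_rfl⟩
    · exact ⟨c, le_rfl, (QQ_spec hZ hG hΓ c.1 c.2).2 d.1 d.2 h1⟩
  have h1 := isoGraph_iSup (X := fun c : {c : Om // a₀ ≤ c} => G (SS G Z c.1))
    (fun c => (QQ_spec hZ hG hΓ c.1 c.2).1) hd
  have h2 : (⨆ c : {c : Om // a₀ ≤ c}, G (SS G Z c.1)) = ⨆ a, SS G Z a := by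
    apply le_antisymm
    · refine iSup_le fun c => ?_
      obtain ⟨b, hb⟩ := exists_bound {c.1} (countable_singleton _)
      exact (G_le (hb c.1 rfl)).trans (le_iSup (fun a => SS G Z a) b)
    · refine iSup_le fun a => ?_
      rcases le_total a₀ a with h3 | h3
      · exact (le_G hZ hG a).trans
          (le_iSup (fun c : {c : Om // a₀ ≤ c} => G (SS G Z c.1)) ⟨a, h3⟩)
      · exact ((le_G hZ hG a).trans (mono_G hZ hG h3)).trans
          (le_iSup (fun c : {c : Om // a₀ ≤ c} => G (SS G Z c.1)) ⟨a₀, le_rfl⟩)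
  rw [h2] at h1
  refine ⟨_, ?_, h1⟩
  have h3 : QQ hZ hG a₀ Γ₀ a₀ = Γ₀ := by rw [QQ_eq, if_pos rfl]
  exact h3.symm.le.trans
    (le_iSup (fun c : {c : Om // a₀ ≤ c} => QQ hZ hG a₀ Γ₀ c.1) ⟨a₀, le_rfl⟩)

/-- Finite partial isometries of the union extend. -/
theorem exists_extends [CompleteSpace H] {n : ℕ} (s v : Fin n → H)
    (hs : ∀ i, s i ∈ (⨆ a, SS G Z a)) (hv : ∀ i, v i ∈ (⨆ a, SS G Z a))
    (iso : ∀ a : Fin n → ℝ, ‖∑ i, a i • s i‖ = ‖∑ i, a i • v i‖) :
    ∃ σ : (⨆ a, SS G Z a : Submodule ℝ H) ≃ₗᵢ[ℝ] (⨆ a, SS G Z a : Submodule ℝ H),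
      ∀ i, (σ ⟨s i, hs i⟩ : H) = v i := by
  obtain ⟨a, ha⟩ := finite_union hZ hG s hs
  obtain ⟨b, hb⟩ := finite_union hZ hG v hv
  set c := max a b with hc
  have hsc : ∀ i, s i ∈ SS G Z c := fun i => mono_SS hZ hG (le_max_left a b) (ha i)
  have hvc : ∀ i, v i ∈ SS G Z c := fun i => mono_SS hZ hG (le_max_right a b) (hb i)
  set l : Lt (SS G Z c) :=
    { n := n
      s := fun i => ⟨s i, hsc i⟩
      v := fun i => ⟨v i, hvc i⟩
      iso := fun a => by
        have h1 : ∀ (w : Fin n → H) (hw : ∀ i, w i ∈ SS G Z c),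
            ‖∑ i, a i • (⟨w i, hw i⟩ : SS G Z c)‖ = ‖∑ i, a i • w i‖ := by
          intro w hw
          have h2 : ((∑ i, a i • (⟨w i, hw i⟩ : SS G Z c) : SS G Z c) : H) =
              ∑ i, a i • w i := by
            rw [Submodule.coe_sum]
            rfl
          rw [← h2]
          rfl
        rw [h1 s hsc, h1 v hvc]
        exact iso a } with hl
  obtain ⟨Γ₀, h1, h2⟩ := (hG _ (mk_SS' hZ hG c)).2.2.2.2.1 l
  obtain ⟨Γ, h3, h4⟩ := exists_union_graph hZ hG h1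
  obtain ⟨σ, hσ⟩ := h4.to_iso
  exact ⟨σ, fun i => hσ (s i, v i) (h3 (h2 i)) (hs i)⟩

end Main

end Pool.Agent.R278.Hom
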