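import Pool.Agent.R278.Hom.Init

/-!
# The final properties
-/

open Set Filter Topology Cardinal
open scoped ENNReal

namespace Pool.Agent.R278.Hom

/-- The property extracted from the construction. -/
def Good (X : Type) [NormedAddCommGroup X] [NormedSpace ℝ X] : Prop :=
  (∀ (n : ℕ) (s v : Fin n → X), (∀ a : Fin n → ℝ, ‖∑ i, a i • s i‖ = ‖∑ i, a i • v i‖) →
    ∃ σ : X ≃ₗᵢ[ℝ] X, ∀ i, σ (s i) = v i) ∧
  ∃ g : ZZ →ₗᵢ[ℝ] X, ∀ y : X, Free (fun n => g (ez n)) y

theorem exists_good : ∃ (X : Type) (_ : NormedAddCommGroup X) (_ : NormedSpace ℝ X)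
    (_ : CompleteSpace X), Good X := by
  obtain ⟨H, i1, i2, i3, X, hX, h1, h2⟩ := exists_main
  refine ⟨X, inferInstance, inferInstance, hX.completeSpace_coe, ?_, h2⟩
  intro n s v iso
  obtain ⟨σ, hσ⟩ := h1 n (fun i => s i) (fun i => v i) (fun i => (s i).2) (fun i => (v i).2)
    (fun a => by
      have h3 : ∀ w : Fin n → X, ∑ i, a i • (w i : H) = ((∑ i, a i • w i : X) : H) := by
        intro w
        rw [Submodule.coe_sum]
        rfl
      rw [h3, h3]
      exact iso a)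
  exact ⟨σ, fun i => Subtype.ext (hσ i)⟩

variable {X : Type} [NormedAddCommGroup X] [NormedSpace ℝ X]

theorem Good.hom (h : Good X) (E F : Submodule ℝ X) (_ : FiniteDimensional ℝ E)
    (φ : E ≃ₗᵢ[ℝ] F) : ∃ σ : X ≃ₗᵢ[ℝ] X, ∀ x : E, σ (x : X) = (φ x : X) := by
  have hfree : Module.Free ℝ E := Module.Free.of_divisionRing ℝ E
  obtain ⟨n, ⟨b⟩⟩ : ∃ k, Nonempty (Module.Basis (Fin k) ℝ E) := ⟨_, ⟨Module.finBasis ℝ E⟩⟩
  obtain ⟨σ, hσ⟩ := h.1 n (fun i => (b i : X)) (fun i => (φ (b i) : X)) (fun a => by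
    have h1 : ∑ i, a i • (b i : X) = ((∑ i, a i • b i : E) : X) := by
      rw [Submodule.coe_sum]
      rfl
    have h2 : ∑ i, a i • (φ (b i) : X) = ((φ (∑ i, a i • b i) : F) : X) := by
      rw [map_sum, Submodule.coe_sum]
      refine Finset.sum_congr rfl fun i _ => ?_
      rw [map_smul]
      rfl
    rw [h1, h2]
    exact (φ.norm_map (∑ i, a i • b i)).symm)
  refine ⟨σ, ?_⟩
  have h3 : (σ.toLinearEquiv : X →ₗ[ℝ] X).comp E.subtype =
      F.subtype.comp (φ.toLinearEquiv : E →ₗ[ℝ] F) := b.ext fun i => hσ i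
  exact fun x => LinearMap.congr_fun h3 x

theorem Good.strong (h : Good X) (F : Type) [NormedAddCommGroup F] [NormedSpace ℝ F]
    [FiniteDimensional ℝ F] (E : Submodule ℝ F) (f : E →ₗᵢ[ℝ] X) :
    ∃ g : F →ₗᵢ[ℝ] X, ∀ x : E, g (x : F) = f x := by
  obtain ⟨g, -⟩ := h.2
  obtain ⟨u⟩ := exists_embed F
  have hs : ∀ x : VV, ‖(lp.lsingle (𝕜 := ℝ) (E := fun _ : ℕ => VV) 1 0) x‖ = ‖x‖ := by
    intro x
    change ‖(lp.single 1 0 x : ZZ)‖ = ‖x‖
    rw [lp.norm_single (by simp)]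
  set w : F →ₗᵢ[ℝ] X := (g.comp ⟨lp.lsingle 1 0, hs⟩).comp u with hw
  have hfree : Module.Free ℝ E := Module.Free.of_divisionRing ℝ E
  obtain ⟨n, ⟨b⟩⟩ : ∃ k, Nonempty (Module.Basis (Fin k) ℝ E) := ⟨_, ⟨Module.finBasis ℝ E⟩⟩
  obtain ⟨σ, hσ⟩ := h.1 n (fun i => w (b i)) (fun i => f (b i)) (fun a => by
    have h1 : ∑ i, a i • w (b i) = w ((∑ i, a i • b i : E) : F) := by
      rw [Submodule.coe_sum, map_sum]
      refine Finset.sum_congr rfl fun i _ => ?_
      rw [← map_smul]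
      rfl
    have h2 : ∑ i, a i • f (b i) = f (∑ i, a i • b i) := by
      rw [map_sum]
      simp
    rw [h1, h2, w.norm_map, f.norm_map]
    rfl)
  refine ⟨σ.toLinearIsometry.comp w, ?_⟩
  have h3 : ((σ.toLinearIsometry.comp w).toLinearMap).comp E.subtype = f.toLinearMap :=
    b.ext fun i => hσ i
  exact fun x => LinearMap.congr_fun h3 x

theorem Good.not_sep [CompleteSpace X] (h : Good X)
    (hsep : ∀ (A B : Type) [NormedAddCommGroup A] [NormedSpace ℝ A] [CompleteSpace A]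
      [TopologicalSpace.SeparableSpace A] [NormedAddCommGroup B] [NormedSpace ℝ B]
      [CompleteSpace B] [TopologicalSpace.SeparableSpace B] (i : A →ₗᵢ[ℝ] B) (f : A →ₗᵢ[ℝ] X),
      ∃ g : B →ₗᵢ[ℝ] X, ∀ a, g (i a) = f a) : False := by
  obtain ⟨g, hg⟩ := h.2
  set S : Submodule ℝ X :=
    (Submodule.span ℝ (range fun n => g (ez n))).topologicalClosure with hS
  have hSc : CompleteSpace S := (Submodule.isClosed_topologicalClosure _).completeSpace_coe
  have hSs : TopologicalSpace.SeparableSpace S := by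
    have h1 : TopologicalSpace.IsSeparable (S : Set X) :=
      ((countable_range _).isSeparable.span (R := ℝ)).closure
    exact h1.separableSpace
  have hmem : ∀ n, g (ez n) ∈ S := fun n =>
    Submodule.le_topologicalClosure _ (Submodule.subset_span ⟨n, rfl⟩)
  set i : S →ₗᵢ[ℝ] (S × ℝ) :=
    { toLinearMap := LinearMap.inl ℝ S ℝ
      norm_map' := fun x => by
        change ‖((x, 0) : S × ℝ)‖ = ‖x‖
        rw [Prod.norm_mk]
        simp } with hi
  obtain ⟨k, hk⟩ := hsep S (S × ℝ) i S.subtypeₗᵢ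
  set y : X := k ((0 : S), (1 : ℝ)) with hy
  have h1 : ‖y‖ = 1 := by
    rw [hy, k.norm_map, Prod.norm_mk]
    simp
  have h2 : ∀ n, ‖y + g (ez n)‖ = 1 := by
    intro n
    have h3 : g (ez n) = k ((⟨g (ez n), hmem n⟩ : S), (0 : ℝ)) := (hk ⟨g (ez n), hmem n⟩).symm
    rw [h3, hy, ← map_add, k.norm_map, Prod.mk_add_mk, zero_add, add_zero, Prod.norm_mk]
    have h4 : ‖(⟨g (ez n), hmem n⟩ : S)‖ = 1 := by
      change ‖g (ez n)‖ = 1
      rw [g.norm_map, norm_ez]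
    rw [h4]
    simp
  have h3 := hg y
  have h4 : Tendsto (fun _ : ℕ => (1 : ℝ)) atTop (𝓝 (‖y‖ + 1)) := by
    refine h3.congr fun n => ?_
    exact h2 n
  have h5 := tendsto_nhds_unique h4 tendsto_const_nhds
  rw [h1] at h5
  norm_num at h5

end Pool.Agent.R278.Hom
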