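import Pool.Agent.R278.Hom.Space

/-!
# Free sequences stay free in the tree amalgam
-/

open Set Filter Topology
open scoped ENNReal

namespace Pool.Agent.R278.Hom

universe u

variable {X : Type u} [NormedAddCommGroup X] [NormedSpace ℝ X]

/-- The sum of a list of generators. -/
noncomputable def ls (L : List (GG X × X)) : LF X := (L.map fun p => gn p.1 p.2).sum

theorem ls_apply (L : List (GG X × X)) (Φ : Fam X) :
    ls L Φ = (L.map fun p => Φ.1 p.1 p.2).sum := by
  induction L with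
  | nil =>
    change (0 : LF X) Φ = 0
    rw [lp.coeFn_zero, Pi.zero_apply]
  | cons p L ih =>
    have h1 : ls (p :: L) = gn p.1 p.2 + ls L := by
      unfold ls
      rw [List.map_cons, List.sum_cons]
    rw [h1, lp.coeFn_add, Pi.add_apply, ih, List.map_cons, List.sum_cons, gn_apply]

theorem exists_ls {y : LF X}
    (hy : y ∈ Submodule.span ℝ (range fun p : GG X × X => gn p.1 p.2)) : ∃ L, y = ls L := by
  induction hy using Submodule.span_induction with
  | mem x hx =>
    obtain ⟨p, rfl⟩ := hx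
    exact ⟨[p], by simp [ls]⟩
  | zero => exact ⟨[], by simp [ls]⟩
  | add x y _ _ hx hy =>
    obtain ⟨L, rfl⟩ := hx
    obtain ⟨M, rfl⟩ := hy
    exact ⟨L ++ M, by simp [ls]⟩
  | smul c x _ hx =>
    obtain ⟨L, rfl⟩ := hx
    refine ⟨L.map fun p => (p.1, c • p.2), ?_⟩
    apply LF.ext'
    intro Φ
    rw [lp.coeFn_smul, Pi.smul_apply, ls_apply, ls_apply, List.map_map, smul_eq_mul,
      ← List.sum_map_mul_left]
    congr 1
    refine List.map_congr_left fun p _ => ?_
    simp

/-- The opposite family. -/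
noncomputable def nf (Φ : Fam X) : Fam X :=
  ⟨fun h => -Φ.1 h, fun h => by rw [norm_neg]; exact Φ.2.1 h, fun h l i => by
    rw [neg_apply, neg_apply, Φ.2.2]⟩

theorem ls_nf (L : List (GG X × X)) (Φ : Fam X) : ls L (nf Φ) = -ls L Φ := by
  rw [ls_apply, ls_apply]
  induction L with
  | nil => simp
  | cons p L ih =>
    rw [List.map_cons, List.map_cons, List.sum_cons, List.sum_cons, ih]
    have : (nf Φ).1 p.1 p.2 = -Φ.1 p.1 p.2 := rfl
    rw [this]
    ring

theorem exists_near (L : List (GG X × X)) {ε : ℝ} (hε : 0 < ε) :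
    ∃ Φ : Fam X, ‖ls L‖ - ε < ls L Φ := by
  by_contra hcon
  push Not at hcon
  have h1 : ∀ Φ, |ls L Φ| ≤ ‖ls L‖ - ε := by
    intro Φ
    have h2 := hcon Φ
    have h3 := hcon (nf Φ)
    rw [ls_nf] at h3
    rw [abs_le]
    constructor <;> linarith
  have h2 : 0 ≤ ‖ls L‖ - ε := (abs_nonneg _).trans (h1 default)
  have h3 : ‖ls L‖ ≤ ‖ls L‖ - ε := by
    refine lp.norm_le_of_forall_le h2 fun Φ => ?_
    rw [Real.norm_eq_abs]
    exact h1 Φ
  linarith

open Classical in
theorem free_ls {e : ℕ → X} (he : ∀ n, ‖e n‖ ≤ 1) (hP : ∀ y : X, Free e y)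
    (L : List (GG X × X)) {ε : ℝ} (hε : 0 < ε) (hε1 : ε < 1) :
    ∀ᶠ n in atTop, (1 - ε) * (‖ls L‖ - ε + 1) ≤ ‖ls L + gn 1 (e n)‖ := by
  set B : Set X := ⋃ p ∈ {p | p ∈ L}, ({p.2} ∪ ⋃ q ∈ {q | q ∈ p.1.toWord},
    (range q.1.s ∪ range q.1.v)) with hB
  have hBf : B.Finite := by
    refine (List.finite_toSet L).biUnion fun p _ => ?_
    refine (finite_singleton _).union ?_
    refine (List.finite_toSet _).biUnion fun q _ => ?_
    exact (finite_range _).union (finite_range _)
  set E : Submodule ℝ X := Submodule.span ℝ B with hE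
  have hfd : FiniteDimensional ℝ E := FiniteDimensional.span_of_finite ℝ hBf
  have hB1 : ∀ p ∈ L, p.2 ∈ E := by
    intro p hp
    refine Submodule.subset_span ?_
    rw [hB]
    exact mem_biUnion (x := p) hp (Or.inl rfl)
  have hB2 : ∀ p ∈ L, ∀ q ∈ p.1.toWord, ∀ i, q.1.s i ∈ E ∧ q.1.v i ∈ E := by
    intro p hp q hq i
    constructor
    · refine Submodule.subset_span ?_
      rw [hB]
      exact mem_biUnion (x := p) hp (Or.inr (mem_biUnion (x := q) hq (Or.inl ⟨i, rfl⟩)))
    · refine Submodule.subset_span ?_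
      rw [hB]
      exact mem_biUnion (x := p) hp (Or.inr (mem_biUnion (x := q) hq (Or.inr ⟨i, rfl⟩)))
  obtain ⟨Φ, hΦ⟩ := exists_near L hε
  set S : Set (List (Lt X × Bool)) := {w | w ≠ [] ∧ ∃ p ∈ L, w <:+ p.1.toWord} with hS
  have hS1 : ∀ x w, x :: w ∈ S → w ∈ S ∨ w = [] := by
    rintro x w ⟨-, p, hp, h1⟩
    by_cases hw : w = []
    · exact Or.inr hw
    · exact Or.inl ⟨hw, p, hp, (List.suffix_cons x w).trans h1⟩
  refine (free_dual he E (fun y _ => hP y) hε hε1).mono fun n hn => ?_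
  obtain ⟨Ψ, h1, h2, h3⟩ := hn (Φ.1 1) (Φ.2.1 1)
  obtain ⟨Φ', h4, h5⟩ := exists_fam Φ (c := 1 - ε) (by linarith) (by linarith) S hS1 h1
    (by
      rintro l ⟨-, p, hp, h6⟩ i
      exact h2 _ (hB2 p hp (l, true) (h6.subset (by simp)) i).2)
    (by
      rintro l ⟨-, p, hp, h6⟩ i
      exact h2 _ (hB2 p hp (l, false) (h6.subset (by simp)) i).1)
  have h6 : ls L Φ' = (1 - ε) * ls L Φ := by
    rw [ls_apply, ls_apply, ← List.sum_map_mul_left]
    congr 1
    refine List.map_congr_left fun p hp => ?_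
    by_cases hp1 : p.1 = 1
    · rw [hp1, h4]
      exact h2 _ (hB1 p hp)
    · have h7 : p.1.toWord ∈ S :=
        ⟨fun h => hp1 (FreeGroup.toWord_eq_nil_iff.1 h), p, hp, List.suffix_refl _⟩
      rw [h5 _ hp1 h7]
      rfl
  have h7 := abs_apply_le (ls L + gn 1 (e n)) Φ'
  rw [lp.coeFn_add, Pi.add_apply, gn_apply, h4, h3, h6] at h7
  refine le_trans ?_ ((le_abs_self _).trans h7)
  nlinarith

/-- Free sequences over the whole space stay free over the tree amalgam. -/
theorem free_em {e : ℕ → X} (he : ∀ n, ‖e n‖ ≤ 1) (hP : ∀ y : X, Free e y) (y : YY X) :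
    Free (fun n => em (e n)) y := by
  have h1 : ∀ y ∈ YY X, Free (fun n => gn 1 (e n)) y := by
    intro y hy
    have h2 : ((Submodule.span ℝ (range fun p : GG X × X => gn p.1 p.2) : Submodule ℝ (LF X)) :
        Set (LF X)) ⊆ {y | Free (fun n => gn 1 (e n)) y} := by
      intro z hz
      obtain ⟨L, rfl⟩ := exists_ls hz
      change Tendsto _ _ _
      rw [Metric.tendsto_atTop']
      intro δ hδ
      set M : ℝ := ‖ls L‖ + 2 with hM
      have hM0 : 0 < M := by positivity
      set ε : ℝ := min (1 / 2) (δ / (2 * M)) with hε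
      have hε0 : 0 < ε := lt_min (by norm_num) (by positivity)
      have hε1 : ε < 1 := (min_le_left _ _).trans_lt (by norm_num)
      have hε2 : ε * M ≤ δ / 2 := by
        have h3 : ε ≤ δ / (2 * M) := min_le_right _ _
        rw [le_div_iff₀ (by positivity)] at h3
        linarith
      obtain ⟨N, hN⟩ := eventually_atTop.1 (free_ls he hP L hε0 hε1)
      refine ⟨N, fun n hn => ?_⟩
      have h3 := hN n hn.le
      have h4 : ‖ls L + gn 1 (e n)‖ ≤ ‖ls L‖ + 1 := by
        refine (norm_add_le _ _).trans ?_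
        have h5 : ‖gn (X := X) 1 (e n)‖ = ‖e n‖ := em.norm_map (e n)
        rw [h5]
        linarith [he n]
      rw [Real.dist_eq, abs_lt]
      constructor
      · nlinarith [norm_nonneg (ls L)]
      · linarith
    have h3 : closure ((Submodule.span ℝ (range fun p : GG X × X => gn p.1 p.2) :
        Submodule ℝ (LF X)) : Set (LF X)) ⊆ {y | Free (fun n => gn 1 (e n)) y} :=
      closure_minimal h2 (isClosed_free _)
    exact h3 hy
  exact h1 y y.2

end Pool.Agent.R278.Hom
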