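import Pool.Agent.R278.Hom.Chain
import Pool.Agent.R278.UD.Final

/-!
# The initial space and the final construction
-/

open Set Filter Topology Cardinal
open scoped ENNReal

namespace Pool.Agent.R278.Hom

/-- Bounded sequences. -/
abbrev VV : Type := lp (fun _ : ℕ => ℝ) ∞

/-- The initial space `ℓ₁(ℓ_∞)`. -/
abbrev ZZ : Type := lp (fun _ : ℕ => VV) 1

theorem mk_VV_le : #VV ≤ 𝔠 := by
  have h : #VV ≤ #(ℕ → ℝ) := mk_le_of_injective (f := fun v : VV => (v : ℕ → ℝ))
    (fun v w h => lp.ext h)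
  refine h.trans ?_
  simp [mk_real]

theorem mk_ZZ_le : #ZZ ≤ 𝔠 := by
  have h : #ZZ ≤ #(ℕ → VV) := mk_le_of_injective (f := fun v : ZZ => (v : ℕ → VV))
    (fun v w h => lp.ext h)
  refine h.trans ?_
  rw [← power_def]
  refine (power_le_power_right mk_VV_le).trans ?_
  simp

/-- The unit vector of `VV`. -/
noncomputable def w0 : VV := lp.single ∞ 0 (1 : ℝ)

theorem norm_w0 : ‖w0‖ = 1 := by
  unfold w0
  rw [lp.norm_single (by simp)]
  simp

/-- The free sequence. -/
noncomputable def ez (n : ℕ) : ZZ := lp.single 1 n w0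

theorem norm_ez (n : ℕ) : ‖ez n‖ = 1 := by
  unfold ez
  rw [lp.norm_single (by simp)]
  exact norm_w0

theorem norm_fin_sum (f : ℕ → VV) (s : Finset ℕ) :
    ‖∑ i ∈ s, (lp.single 1 i (f i) : ZZ)‖ = ∑ i ∈ s, ‖f i‖ := by
  have h := lp.norm_sum_single (p := 1) (E := fun _ : ℕ => VV) (by simp) f s
  simpa using h

theorem free_fin (f : ℕ → VV) (s : Finset ℕ) :
    Free ez (∑ i ∈ s, (lp.single 1 i (f i) : ZZ)) := by
  have h1 : ∀ᶠ n in atTop, ‖(∑ i ∈ s, (lp.single 1 i (f i) : ZZ)) + ez n‖ =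
      ‖(∑ i ∈ s, (lp.single 1 i (f i) : ZZ))‖ + 1 := by
    have h2 : ∀ᶠ n in atTop, n ∉ s := by
      filter_upwards [eventually_gt_atTop (s.sup id)] with n hn h
      exact absurd (Finset.le_sup (f := id) h) (not_le.2 hn)
    refine h2.mono fun n hn => ?_
    set f' := Function.update f n w0 with hf'
    have h3 : (∑ i ∈ s, (lp.single 1 i (f i) : ZZ)) + ez n =
        ∑ i ∈ insert n s, (lp.single 1 i (f' i) : ZZ) := by
      rw [Finset.sum_insert hn, add_comm]
      congr 1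
      · rw [hf', Function.update_self]
        rfl
      · refine Finset.sum_congr rfl fun i hi => ?_
        rw [hf', Function.update_of_ne]
        rintro rfl
        exact hn hi
    rw [h3, norm_fin_sum, norm_fin_sum, Finset.sum_insert hn, hf', Function.update_self, norm_w0,
      add_comm]
    congr 1
    refine Finset.sum_congr rfl fun i hi => ?_
    rw [Function.update_of_ne]
    rintro rfl
    exact hn hi
  exact (tendsto_congr' h1).2 tendsto_const_nhds

theorem free_ez (y : ZZ) : Free ez y := by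
  have h1 := lp.hasSum_single (p := 1) (by simp) y
  have h2 : y ∈ closure {z | Free ez z} := by
    refine mem_closure_of_tendsto h1 (Eventually.of_forall fun s => ?_)
    exact free_fin (fun i => y i) s
  rwa [(isClosed_free ez).closure_eq] at h2

/-- Finite-dimensional spaces embed isometrically into the bounded sequences. -/
theorem exists_embed (F : Type) [NormedAddCommGroup F] [NormedSpace ℝ F]
    [FiniteDimensional ℝ F] : Nonempty (F →ₗᵢ[ℝ] VV) := by
  set a : ℕ → F := TopologicalSpace.denseSeq F with ha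
  have hd : DenseRange a := TopologicalSpace.denseRange_denseSeq F
  have h1 : ∀ n, ∃ ψ : F →L[ℝ] ℝ, ‖ψ‖ ≤ 1 ∧ ψ (a n) = ‖a n‖ := fun n => by
    obtain ⟨ψ, h1, h2⟩ := exists_dual_vector'' ℝ (a n)
    exact ⟨ψ, h1, by simpa using h2⟩
  choose ψ hψ1 hψ2 using h1
  have hb : ∀ n x, |ψ n x| ≤ ‖x‖ := by
    intro n x
    rw [← Real.norm_eq_abs]
    refine ((ψ n).le_opNorm x).trans ?_
    nlinarith [norm_nonneg x, hψ1 n]
  have hmem : ∀ x, Memℓp (fun n => ψ n x) ∞ := by
    intro x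
    refine memℓp_infty ⟨‖x‖, ?_⟩
    rintro _ ⟨n, rfl⟩
    change ‖ψ n x‖ ≤ ‖x‖
    rw [Real.norm_eq_abs]
    exact hb n x
  refine ⟨{ toFun := fun x => ⟨fun n => ψ n x, hmem x⟩
            map_add' := fun x y => lp.ext (funext fun n => map_add (ψ n) x y)
            map_smul' := fun c x => lp.ext (funext fun n => map_smul (ψ n) c x)
            norm_map' := fun x => ?_ }⟩
  set X : VV := ⟨fun n => ψ n x, hmem x⟩ with hX
  change ‖X‖ = ‖x‖
  refine le_antisymm ?_ ?_
  · refine lp.norm_le_of_forall_le (norm_nonneg _) fun n => ?_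
    rw [Real.norm_eq_abs]
    exact hb n x
  · refine le_of_forall_pos_le_add fun ε hε => ?_
    obtain ⟨n, hn⟩ := hd.exists_dist_lt x (half_pos hε)
    rw [dist_eq_norm] at hn
    have h2 := lp.norm_apply_le_norm (by simp) X n
    rw [Real.norm_eq_abs] at h2
    have h3 : X n = ψ n x := rfl
    have h4 : ψ n (a n) = ψ n x - ψ n (x - a n) := by
      rw [map_sub]
      ring
    have h5 := abs_le.1 (hb n (x - a n))
    have h6 : ‖x‖ ≤ ‖x - a n‖ + ‖a n‖ := by
      have := norm_add_le (x - a n) (a n)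
      rwa [sub_add_cancel] at this
    have h7 := le_abs_self (X n)
    rw [h3] at h7 h2
    rw [hψ2] at h4
    linarith [h5.1]

theorem exists_ambient : ∃ (H : Type) (_ : NormedAddCommGroup H) (_ : NormedSpace ℝ H)
    (_ : CompleteSpace H), UDc H := by
  obtain ⟨H, i1, i2, i3, h1, -⟩ := Pool.Agent.R278.UD.exists_space ℝ
  refine ⟨H, i1, i2, i3, ?_⟩
  intro A E _ _ _ _ i e hA hE
  have key : ∀ (A : Type) [NormedAddCommGroup A], #A ≤ 𝔠 → ∃ d : ℝ → A, DenseRange d := by
    intro A _ hA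
    have h2 : #A ≤ #ℝ := by rw [mk_real]; exact hA
    obtain ⟨f⟩ := h2
    refine ⟨Function.invFun f, ?_⟩
    exact (Function.invFun_surjective f.injective).denseRange
  obtain ⟨dA, hdA⟩ := key A hA
  obtain ⟨dE, hdE⟩ := key E hE
  exact h1 A E i e dA hdA dE hdE

/-- The main construction. -/
theorem exists_main : ∃ (H : Type) (_ : NormedAddCommGroup H) (_ : NormedSpace ℝ H)
    (_ : CompleteSpace H) (X : Submodule ℝ H), IsClosed (X : Set H) ∧
    (∀ (n : ℕ) (s v : Fin n → H) (hs : ∀ i, s i ∈ X) (_ : ∀ i, v i ∈ X),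
      (∀ a : Fin n → ℝ, ‖∑ i, a i • s i‖ = ‖∑ i, a i • v i‖) →
      ∃ σ : X ≃ₗᵢ[ℝ] X, ∀ i, (σ ⟨s i, hs i⟩ : H) = v i) ∧
    (∃ g : ZZ →ₗᵢ[ℝ] X, ∀ y : X, Free (fun n => g (ez n)) y) := by
  obtain ⟨H, i1, i2, i3, hU⟩ := exists_ambient
  -- embed the initial space
  obtain ⟨g, -⟩ := hU (⊥ : Submodule ℝ ZZ) ZZ (Submodule.subtypeₗᵢ _)
    { toLinearMap := 0
      norm_map' := fun x => by
        have : x = 0 := Subsingleton.elim _ _
        rw [this]
        simp } ((mk_subtype_le _).trans mk_ZZ_le) mk_ZZ_le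
  set Z : Submodule ℝ H := LinearMap.range g.toLinearMap with hZdef
  have hZ : #Z ≤ 𝔠 := by
    have h1 : #(range g) ≤ 𝔠 := mk_range_le.trans mk_ZZ_le
    exact h1
  have h1 : ∀ X : Submodule ℝ H, ∃ X' : Submodule ℝ H, #X ≤ 𝔠 → StepP X X' := by
    intro X
    by_cases hX : #X ≤ 𝔠
    · obtain ⟨X', h⟩ := exists_step hU X hX
      exact ⟨X', fun _ => h⟩
    · exact ⟨X, fun h => absurd h hX⟩
  choose G hG using h1
  refine ⟨H, i1, i2, i3, ⨆ a, SS G Z a, closed_union hZ hG, ?_, ?_⟩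
  · intro n s v hs hv iso
    exact exists_extends hZ hG s v hs hv iso
  · have hgm : ∀ x, g x ∈ ⨆ a, SS G Z a := by
      intro x
      obtain ⟨a, -⟩ := Pool.Agent.R278.Equi.exists_bound ∅ countable_empty
      exact (mem_union hZ hG).2 ⟨a, Z_le a ⟨x, rfl⟩⟩
    refine ⟨⟨g.toLinearMap.codRestrict _ hgm, fun x => g.norm_map x⟩, fun y => ?_⟩
    obtain ⟨a, ha⟩ := (mem_union hZ hG).1 y.2
    have hf : ∀ y ∈ Z, Free (fun n => g (ez n)) y := by
      rintro _ ⟨z, rfl⟩
      have h2 := free_ez z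
      change Tendsto (fun n => ‖g z + g (ez n)‖) atTop (𝓝 (‖g z‖ + 1))
      simp only [← map_add, g.norm_map]
      exact h2
    have h3 := free_SS hZ hG (e := fun n => g (ez n)) (fun n => ⟨ez n, rfl⟩)
      (fun n => by rw [g.norm_map, norm_ez]) hf a (y : H) ha
    exact h3

end Pool.Agent.R278.Hom
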