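import Pool.Agent.R278.Hom.Tree

/-!
# The tree amalgam
-/

open Set Filter Topology
open scoped ENNReal

namespace Pool.Agent.R278.Hom

universe u

variable {X : Type u} [NormedAddCommGroup X] [NormedSpace ℝ X]

variable (X) in
/-- Bounded functions on the coherent families. -/
abbrev LF : Type u := lp (fun _ : Fam X => ℝ) ∞

theorem fam_le (Φ : Fam X) (h : GG X) (x : X) : |Φ.1 h x| ≤ ‖x‖ := by
  rw [← Real.norm_eq_abs]
  refine ((Φ.1 h).le_opNorm x).trans ?_
  have := Φ.2.1 h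
  nlinarith [norm_nonneg x]

theorem memlp_gn (h : GG X) (x : X) : Memℓp (fun Φ : Fam X => Φ.1 h x) ∞ := by
  refine memℓp_infty ⟨‖x‖, ?_⟩
  rintro _ ⟨Φ, rfl⟩
  change ‖Φ.1 h x‖ ≤ ‖x‖
  rw [Real.norm_eq_abs]
  exact fam_le Φ h x

/-- The vector `x` at the vertex `h`. -/
noncomputable def gn (h : GG X) (x : X) : LF X := ⟨fun Φ : Fam X => Φ.1 h x, memlp_gn h x⟩

@[simp] theorem gn_apply (h : GG X) (x : X) (Φ : Fam X) : gn h x Φ = Φ.1 h x := rfl

theorem abs_apply_le (F : LF X) (Φ : Fam X) : |F Φ| ≤ ‖F‖ := by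
  have := lp.norm_apply_le_norm (by simp) F Φ
  rwa [Real.norm_eq_abs] at this

theorem LF.ext' {F G : LF X} (h : ∀ Φ, F Φ = G Φ) : F = G := by
  apply lp.ext
  funext Φ
  exact h Φ

theorem gn_add (h : GG X) (x y : X) : gn h (x + y) = gn h x + gn h y := by
  apply LF.ext'
  intro Φ
  rw [lp.coeFn_add, Pi.add_apply, gn_apply, gn_apply, gn_apply, map_add]

theorem gn_smul (h : GG X) (c : ℝ) (x : X) : gn h (c • x) = c • gn h x := by
  apply LF.ext'
  intro Φ
  rw [lp.coeFn_smul, Pi.smul_apply, gn_apply, gn_apply, map_smul]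

variable (X) in
/-- The tree amalgam. -/
noncomputable def YY : Submodule ℝ (LF X) :=
  (Submodule.span ℝ (range fun p : GG X × X => gn p.1 p.2)).topologicalClosure

instance : CompleteSpace (YY X) :=
  (Submodule.isClosed_topologicalClosure _).completeSpace_coe

theorem gn_mem (h : GG X) (x : X) : gn h x ∈ YY X :=
  Submodule.le_topologicalClosure _ (Submodule.subset_span ⟨(h, x), rfl⟩)

/-- The base copy. -/
noncomputable def em : X →ₗᵢ[ℝ] YY X where
  toFun x := ⟨gn 1 x, gn_mem 1 x⟩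
  map_add' x y := Subtype.ext (gn_add 1 x y)
  map_smul' c x := Subtype.ext (gn_smul 1 c x)
  norm_map' x := by
    change ‖gn 1 x‖ = ‖x‖
    refine le_antisymm ?_ ?_
    · refine lp.norm_le_of_forall_le (norm_nonneg _) fun Φ => ?_
      rw [Real.norm_eq_abs]
      exact fam_le Φ 1 x
    · obtain ⟨ψ, h1, h2⟩ := exists_dual_vector'' ℝ x
      obtain ⟨Φ, hΦ⟩ := exists_fam_one h1
      have h3 := abs_apply_le (gn 1 x) Φ
      rw [gn_apply, hΦ, h2] at h3
      simpa using h3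

@[simp] theorem em_coe (x : X) : ((em x : YY X) : LF X) = gn 1 x := rfl

/-- Composition with a bijection of the coherent families. -/
noncomputable def comL (b : Fam X ≃ Fam X) : LF X ≃ₗᵢ[ℝ] LF X where
  toFun F := ⟨fun Φ => F (b Φ), by
    refine memℓp_infty ⟨‖F‖, ?_⟩
    rintro _ ⟨Φ, rfl⟩
    change ‖F (b Φ)‖ ≤ ‖F‖
    rw [Real.norm_eq_abs]
    exact abs_apply_le F _⟩
  invFun F := ⟨fun Φ => F (b.symm Φ), by
    refine memℓp_infty ⟨‖F‖, ?_⟩
    rintro _ ⟨Φ, rfl⟩
    change ‖F (b.symm Φ)‖ ≤ ‖F‖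
    rw [Real.norm_eq_abs]
    exact abs_apply_le F _⟩
  left_inv F := by
    apply LF.ext'
    intro Φ
    change F (b (b.symm Φ)) = F Φ
    rw [Equiv.apply_symm_apply]
  right_inv F := by
    apply LF.ext'
    intro Φ
    change F (b.symm (b Φ)) = F Φ
    rw [Equiv.symm_apply_apply]
  map_add' F G := by
    apply LF.ext'
    intro Φ
    change (F + G : LF X) (b Φ) = F (b Φ) + G (b Φ)
    rw [lp.coeFn_add, Pi.add_apply]
  map_smul' c F := by
    apply LF.ext'
    intro Φ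
    change (c • F : LF X) (b Φ) = c • F (b Φ)
    rw [lp.coeFn_smul, Pi.smul_apply]
  norm_map' F := by
    refine le_antisymm ?_ ?_
    · refine lp.norm_le_of_forall_le (norm_nonneg _) fun Φ => ?_
      rw [Real.norm_eq_abs]
      exact abs_apply_le F _
    · refine lp.norm_le_of_forall_le (norm_nonneg _) fun Φ => ?_
      rw [Real.norm_eq_abs]
      have h1 : ∀ G : LF X, (∀ Ψ, G Ψ = F (b Ψ)) → |F Φ| ≤ ‖G‖ := by
        intro G hG
        have := abs_apply_le G (b.symm Φ)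
        rwa [hG, Equiv.apply_symm_apply] at this
      exact h1 _ fun _ => rfl

@[simp] theorem comL_apply (b : Fam X ≃ Fam X) (F : LF X) (Φ : Fam X) : comL b F Φ = F (b Φ) := rfl

theorem comL_symm_apply (b : Fam X ≃ Fam X) (F : LF X) (Φ : Fam X) :
    (comL b).symm F Φ = F (b.symm Φ) := rfl

/-- Bijections permuting the generators give isometries of the amalgam. -/
theorem exists_iso (b : Fam X ≃ Fam X)
    (h1 : ∀ h x, ∃ h' x', ∀ Φ : Fam X, (b Φ).1 h x = Φ.1 h' x')
    (h2 : ∀ h x, ∃ h' x', ∀ Φ : Fam X, (b.symm Φ).1 h x = Φ.1 h' x') :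
    ∃ T : YY X ≃ₗᵢ[ℝ] YY X, ∀ (F : YY X) (Φ : Fam X), (T F : LF X) Φ = (F : LF X) (b Φ) := by
  have key : ∀ (e : LF X ≃ₗᵢ[ℝ] LF X), (∀ h x, ∃ h' x', e (gn h x) = gn h' x') →
      ∀ F ∈ YY X, e F ∈ YY X := by
    intro e he F hF
    have h3 : (Submodule.span ℝ (range fun p : GG X × X => gn p.1 p.2)) ≤
        (YY X).comap (e.toLinearEquiv : LF X →ₗ[ℝ] LF X) := by
      rw [Submodule.span_le]
      rintro _ ⟨⟨h, x⟩, rfl⟩
      obtain ⟨h', x', h4⟩ := he h x
      change e (gn h x) ∈ YY X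
      rw [h4]
      exact gn_mem _ _
    have h5 : IsClosed (((YY X).comap (e.toLinearEquiv : LF X →ₗ[ℝ] LF X) : Submodule ℝ (LF X)) :
        Set (LF X)) := by
      have : IsClosed ((YY X : Submodule ℝ (LF X)) : Set (LF X)) :=
        Submodule.isClosed_topologicalClosure _
      exact this.preimage e.continuous
    exact Submodule.topologicalClosure_minimal _ h3 h5 hF
  have k1 := key (comL b) (fun h x => by
    obtain ⟨h', x', h3⟩ := h1 h x
    exact ⟨h', x', LF.ext' fun Φ => h3 Φ⟩)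
  have k2 := key (comL b).symm (fun h x => by
    obtain ⟨h', x', h3⟩ := h2 h x
    exact ⟨h', x', LF.ext' fun Φ => h3 Φ⟩)
  refine ⟨{ toFun := fun F => ⟨comL b F, k1 F F.2⟩
            invFun := fun F => ⟨(comL b).symm F, k2 F F.2⟩
            left_inv := fun F => Subtype.ext ((comL b).symm_apply_apply _)
            right_inv := fun F => Subtype.ext ((comL b).apply_symm_apply _)
            map_add' := fun F G => Subtype.ext (map_add (comL b) (F : LF X) G)
            map_smul' := fun c F => Subtype.ext (map_smul (comL b) c (F : LF X))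
            norm_map' := fun F => (comL b).norm_map (F : LF X) }, fun F Φ => rfl⟩

/-- Translation by a letter. -/
theorem exists_letter (l : Lt X) : ∃ T : YY X ≃ₗᵢ[ℝ] YY X, ∀ i, T (em (l.s i)) = em (l.v i) := by
  set k : GG X := FreeGroup.of l with hk
  have hcoh : ∀ (k : GG X) (Φ : Fam X), (∀ h, ‖Φ.1 (h * k)‖ ≤ 1) ∧
      ∀ h (l : Lt X) (i : Fin l.n), Φ.1 (FreeGroup.of l * h * k) (l.s i) = Φ.1 (h * k) (l.v i) := by
    intro k Φ
    refine ⟨fun h => Φ.2.1 _, fun h l i => ?_⟩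
    rw [mul_assoc]
    exact Φ.2.2 _ l i
  set b : Fam X ≃ Fam X :=
    { toFun := fun Φ => ⟨fun h => Φ.1 (h * k), hcoh k Φ⟩
      invFun := fun Φ => ⟨fun h => Φ.1 (h * k⁻¹), hcoh k⁻¹ Φ⟩
      left_inv := fun Φ => by
        apply Subtype.ext
        funext h
        change Φ.1 (h * k⁻¹ * k) = Φ.1 h
        rw [inv_mul_cancel_right]
      right_inv := fun Φ => by
        apply Subtype.ext
        funext h
        change Φ.1 (h * k * k⁻¹) = Φ.1 h
        rw [mul_inv_cancel_right] } with hb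
  obtain ⟨T, hT⟩ := exists_iso b (fun h x => ⟨h * k, x, fun Φ => rfl⟩)
    (fun h x => ⟨h * k⁻¹, x, fun Φ => rfl⟩)
  refine ⟨T, fun i => ?_⟩
  apply Subtype.ext
  apply LF.ext'
  intro Φ
  rw [hT, em_coe, em_coe, gn_apply, gn_apply]
  change Φ.1 (1 * k) (l.s i) = Φ.1 1 (l.v i)
  have := Φ.2.2 1 l i
  rw [mul_one] at this
  rw [one_mul]
  exact this

/-- The action of an isometry on the letters. -/
noncomputable def lm (σ : X ≃ₗᵢ[ℝ] X) (l : Lt X) : Lt X where
  n := l.n
  s := fun i => σ (l.s i)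
  v := fun i => σ (l.v i)
  iso := fun a => by
    have h1 : ∀ w : Fin l.n → X, ∑ i, a i • σ (w i) = σ (∑ i, a i • w i) := by
      intro w
      rw [map_sum]
      simp
    rw [h1, h1, σ.norm_map, σ.norm_map]
    exact l.iso a

theorem lm_symm (σ : X ≃ₗᵢ[ℝ] X) (l : Lt X) : lm σ.symm (lm σ l) = l := by
  rcases l with ⟨n, s, v, iso⟩
  simp [lm]

/-- The action on the families. -/
noncomputable def bs (σ : X ≃ₗᵢ[ℝ] X) (Φ : Fam X) : Fam X :=
  ⟨fun h => (Φ.1 (FreeGroup.map (lm σ) h)).comp (σ.toContinuousLinearEquiv : X →L[ℝ] X), by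
    constructor
    · intro h
      refine ContinuousLinearMap.opNorm_le_bound _ zero_le_one fun x => ?_
      have := fam_le Φ (FreeGroup.map (lm σ) h) (σ x)
      rw [σ.norm_map] at this
      rw [one_mul, Real.norm_eq_abs]
      exact this
    · intro h l i
      have := Φ.2.2 (FreeGroup.map (lm σ) h) (lm σ l) i
      change Φ.1 (FreeGroup.map (lm σ) (FreeGroup.of l * h)) (σ (l.s i)) =
        Φ.1 (FreeGroup.map (lm σ) h) (σ (l.v i))
      rw [map_mul, FreeGroup.map.of]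
      exact this⟩

theorem bs_bs (σ : X ≃ₗᵢ[ℝ] X) (Φ : Fam X) : bs σ.symm (bs σ Φ) = Φ := by
  apply Subtype.ext
  funext h
  ext x
  change Φ.1 (FreeGroup.map (lm σ) (FreeGroup.map (lm σ.symm) h)) (σ (σ.symm x)) = Φ.1 h x
  rw [σ.apply_symm_apply, FreeGroup.map.comp]
  have : lm σ ∘ lm σ.symm = id := by
    funext l
    have := lm_symm σ.symm l
    rwa [LinearIsometryEquiv.symm_symm] at this
  rw [this, FreeGroup.map.id]

/-- Isometries extend to the amalgam. -/
theorem exists_extend (σ : X ≃ₗᵢ[ℝ] X) : ∃ T : YY X ≃ₗᵢ[ℝ] YY X, ∀ x, T (em x) = em (σ x) := by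
  set b : Fam X ≃ Fam X :=
    { toFun := bs σ
      invFun := bs σ.symm
      left_inv := bs_bs σ
      right_inv := fun Φ => by
        have := bs_bs σ.symm Φ
        rwa [LinearIsometryEquiv.symm_symm] at this } with hb
  obtain ⟨T, hT⟩ := exists_iso b (fun h x => ⟨FreeGroup.map (lm σ) h, σ x, fun Φ => rfl⟩)
    (fun h x => ⟨FreeGroup.map (lm σ.symm) h, σ.symm x, fun Φ => rfl⟩)
  refine ⟨T, fun x => ?_⟩
  apply Subtype.ext
  apply LF.ext'
  intro Φ
  rw [hT, em_coe, em_coe, gn_apply, gn_apply]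
  change Φ.1 (FreeGroup.map (lm σ) 1) (σ x) = Φ.1 1 (σ x)
  rw [map_one]

end Pool.Agent.R278.Hom
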