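import Pool.Agent.R278.Hom.Card

/-!
# One step of the construction inside an ambient space
-/

open Set Filter Topology Cardinal
open scoped ENNReal

namespace Pool.Agent.R278.Hom

variable {H : Type} [NormedAddCommGroup H] [NormedSpace ℝ H]

variable (H) in
/-- Universal disposition for spaces of cardinality at most the continuum. -/
def UDc : Prop := ∀ (A E : Type) [NormedAddCommGroup A] [NormedSpace ℝ A] [NormedAddCommGroup E]
  [NormedSpace ℝ E] (i : A →ₗᵢ[ℝ] E) (e : A →ₗᵢ[ℝ] H), #A ≤ 𝔠 → #E ≤ 𝔠 →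
    ∃ g : E →ₗᵢ[ℝ] H, ∀ a, g (i a) = e a

/-- Graphs of isometries of `X` onto itself. -/
def IsoGraph (X : Submodule ℝ H) (Γ : Submodule ℝ (H × H)) : Prop :=
  (∀ p ∈ Γ, ‖p.1‖ = ‖p.2‖) ∧ Γ.map (LinearMap.fst ℝ H H) = X ∧ Γ.map (LinearMap.snd ℝ H H) = X

theorem IsoGraph.to_iso {X : Submodule ℝ H} {Γ : Submodule ℝ (H × H)} (h : IsoGraph X Γ) :
    ∃ σ : X ≃ₗᵢ[ℝ] X, ∀ p ∈ Γ, ∀ h : p.1 ∈ X, (σ ⟨p.1, h⟩ : H) = p.2 := by
  obtain ⟨h1, h2, h3⟩ := h
  have m1 : ∀ p : Γ, (p : H × H).1 ∈ X := fun p => by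
    rw [← h2]
    exact ⟨p, p.2, rfl⟩
  have m2 : ∀ p : Γ, (p : H × H).2 ∈ X := fun p => by
    rw [← h3]
    exact ⟨p, p.2, rfl⟩
  set f1 : Γ →ₗ[ℝ] X := ((LinearMap.fst ℝ H H).comp Γ.subtype).codRestrict X m1 with hf1
  set f2 : Γ →ₗ[ℝ] X := ((LinearMap.snd ℝ H H).comp Γ.subtype).codRestrict X m2 with hf2
  have a1 : ∀ p : Γ, (f1 p : H) = (p : H × H).1 := fun p => rfl
  have a2 : ∀ p : Γ, (f2 p : H) = (p : H × H).2 := fun p => rfl
  have b1 : Function.Bijective f1 := by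
    constructor
    · rw [← LinearMap.ker_eq_bot, LinearMap.ker_eq_bot']
      intro p hp
      have h4 : (p : H × H).1 = 0 := by
        rw [← a1, hp]
        rfl
      have h5 := h1 p p.2
      rw [h4, norm_zero] at h5
      have h6 : (p : H × H).2 = 0 := norm_eq_zero.1 h5.symm
      exact Subtype.ext (Prod.ext h4 h6)
    · rintro ⟨x, hx⟩
      rw [← h2] at hx
      obtain ⟨p, hp, rfl⟩ := hx
      exact ⟨⟨p, hp⟩, rfl⟩
  have b2 : Function.Bijective f2 := by
    constructor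
    · rw [← LinearMap.ker_eq_bot, LinearMap.ker_eq_bot']
      intro p hp
      have h4 : (p : H × H).2 = 0 := by
        rw [← a2, hp]
        rfl
      have h5 := h1 p p.2
      rw [h4, norm_zero] at h5
      have h6 : (p : H × H).1 = 0 := norm_eq_zero.1 h5
      exact Subtype.ext (Prod.ext h6 h4)
    · rintro ⟨x, hx⟩
      rw [← h3] at hx
      obtain ⟨p, hp, rfl⟩ := hx
      exact ⟨⟨p, hp⟩, rfl⟩
  set e1 := LinearEquiv.ofBijective f1 b1 with he1
  set e2 := LinearEquiv.ofBijective f2 b2 with he2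
  refine ⟨⟨e1.symm.trans e2, fun x => ?_⟩, fun p hp hx => ?_⟩
  · change ‖((e2 (e1.symm x) : X) : H)‖ = ‖(x : H)‖
    have h4 : (e2 (e1.symm x) : H) = ((e1.symm x : Γ) : H × H).2 := rfl
    have h5 : ((e1 (e1.symm x) : X) : H) = ((e1.symm x : Γ) : H × H).1 := rfl
    rw [LinearEquiv.apply_symm_apply] at h5
    rw [h4, h5]
    exact (h1 _ (e1.symm x).2).symm
  · change (e2 (e1.symm ⟨p.1, hx⟩) : H) = p.2
    have h4 : e1.symm ⟨p.1, hx⟩ = ⟨p, hp⟩ := by
      rw [LinearEquiv.symm_apply_eq]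
      rfl
    rw [h4]
    rfl

/-- The graph of an isometry. -/
theorem isoGraph_range {Y : Type} [NormedAddCommGroup Y] [NormedSpace ℝ Y] (j : Y →ₗᵢ[ℝ] H)
    (T : Y ≃ₗᵢ[ℝ] Y) : IsoGraph (LinearMap.range j.toLinearMap)
      (LinearMap.range (j.toLinearMap.prod
        (j.toLinearMap.comp (T.toLinearEquiv : Y →ₗ[ℝ] Y)))) := by
  refine ⟨?_, ?_, ?_⟩
  · rintro _ ⟨y, rfl⟩
    change ‖j y‖ = ‖j (T y)‖
    rw [j.norm_map, j.norm_map, T.norm_map]
  · rw [← LinearMap.range_comp]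
    rfl
  · rw [← LinearMap.range_comp]
    ext x
    constructor
    · rintro ⟨y, rfl⟩
      exact ⟨T y, rfl⟩
    · rintro ⟨y, rfl⟩
      refine ⟨T.symm y, ?_⟩
      change j (T (T.symm y)) = j y
      rw [T.apply_symm_apply]

/-- The properties of one step. -/
def StepP (X X' : Submodule ℝ H) : Prop :=
  X ≤ X' ∧ IsClosed (X' : Set H) ∧ #X' ≤ 𝔠 ∧
  (∀ Γ, IsoGraph X Γ → ∃ Γ', Γ ≤ Γ' ∧ IsoGraph X' Γ') ∧
  (∀ l : Lt X, ∃ Γ', IsoGraph X' Γ' ∧ ∀ i, (((l.s i : X) : H), ((l.v i : X) : H)) ∈ Γ') ∧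
  (∀ e : ℕ → H, (∀ n, e n ∈ X) → (∀ n, ‖e n‖ ≤ 1) → (∀ y ∈ X, Free e y) → ∀ y ∈ X', Free e y)

theorem exists_step (hU : UDc H) (X : Submodule ℝ H) (hX : #X ≤ 𝔠) :
    ∃ X' : Submodule ℝ H, StepP X X' := by
  obtain ⟨j, hj⟩ := hU X (YY X) em X.subtypeₗᵢ hX (mk_YY_le hX)
  refine ⟨LinearMap.range j.toLinearMap, ?_, ?_, ?_, ?_, ?_, ?_⟩
  · intro x hx
    exact ⟨em ⟨x, hx⟩, hj ⟨x, hx⟩⟩
  · have : IsClosed (range j) := j.isometry.isClosedEmbedding.isClosed_range
    exact this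
  · have h1 : #(range j) ≤ 𝔠 := mk_range_le.trans (mk_YY_le hX)
    exact h1
  · intro Γ hΓ
    obtain ⟨σ, hσ⟩ := hΓ.to_iso
    obtain ⟨T, hT⟩ := exists_extend σ
    refine ⟨_, ?_, isoGraph_range j T⟩
    intro p hp
    have hp1 : p.1 ∈ X := by
      rw [← hΓ.2.1]
      exact ⟨p, hp, rfl⟩
    refine ⟨em ⟨p.1, hp1⟩, ?_⟩
    change (j (em ⟨p.1, hp1⟩), j (T (em ⟨p.1, hp1⟩))) = p
    rw [hT, hj, hj]
    exact Prod.ext rfl (hσ p hp hp1)
  · intro l
    obtain ⟨T, hT⟩ := exists_letter l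
    refine ⟨_, isoGraph_range j T, fun i => ?_⟩
    refine ⟨em (l.s i), ?_⟩
    change (j (em (l.s i)), j (T (em (l.s i)))) = _
    rw [hT, hj, hj]
    rfl
  · intro e heX he hfree y hy
    obtain ⟨z, rfl⟩ := hy
    set e' : ℕ → X := fun n => ⟨e n, heX n⟩ with he'
    have h1 : ∀ y : X, Free e' y := by
      intro y
      have h2 := hfree y y.2
      change Tendsto (fun n => ‖y + e' n‖) atTop (𝓝 (‖y‖ + 1))
      exact h2
    have h2 := free_em (e := e') (fun n => he n) h1 z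
    change Tendsto (fun n => ‖j z + e n‖) atTop (𝓝 (‖j z‖ + 1))
    have h3 : ∀ n, ‖j z + e n‖ = ‖z + em (e' n)‖ := by
      intro n
      have h4 : e n = j (em (e' n)) := (hj (e' n)).symm
      rw [h4, ← map_add, j.norm_map]
    simp only [h3]
    rw [j.norm_map]
    exact h2

/-- Closures of graphs. -/
theorem isoGraph_closure [CompleteSpace H] {X : Submodule ℝ H} {Γ : Submodule ℝ (H × H)}
    (h : IsoGraph X Γ) : IsoGraph X.topologicalClosure Γ.topologicalClosure := by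
  obtain ⟨h1, h2, h3⟩ := h
  have hcl : ∀ p ∈ Γ.topologicalClosure, ‖p.1‖ = ‖p.2‖ := by
    intro p hp
    have h4 : (Γ : Set (H × H)) ⊆ {p | ‖p.1‖ = ‖p.2‖} := fun p hp => h1 p hp
    have h5 : IsClosed {p : H × H | ‖p.1‖ = ‖p.2‖} :=
      isClosed_eq continuous_fst.norm continuous_snd.norm
    exact closure_minimal h4 h5 hp
  refine ⟨hcl, ?_, ?_⟩
  · apply le_antisymm
    · rintro _ ⟨p, hp, rfl⟩
      have h4 : (LinearMap.fst ℝ H H) '' closure (Γ : Set (H × H)) ⊆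
          closure ((LinearMap.fst ℝ H H) '' (Γ : Set (H × H))) :=
        image_closure_subset_closure_image continuous_fst
      have h5 := h4 ⟨p, hp, rfl⟩
      have h6 : (LinearMap.fst ℝ H H) '' (Γ : Set (H × H)) = (X : Set H) := by
        rw [← h2]
        rfl
      rw [h6] at h5
      exact h5
    · intro x hx
      obtain ⟨u, hu1, hu2⟩ := mem_closure_iff_seq_limit.1 (show x ∈ closure (X : Set H) from hx)
      have h4 : ∀ n, ∃ y, (u n, y) ∈ Γ := by
        intro n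
        have h5 : u n ∈ Γ.map (LinearMap.fst ℝ H H) := by
          rw [h2]
          exact hu1 n
        obtain ⟨p, hp, h6⟩ := h5
        refine ⟨p.2, ?_⟩
        have : (u n, p.2) = p := Prod.ext h6.symm rfl
        rw [this]
        exact hp
      choose y hy using h4
      have h5 : CauchySeq y := by
        have h6 := hu2.cauchySeq
        rw [Metric.cauchySeq_iff'] at h6 ⊢
        intro ε hε
        obtain ⟨N, hN⟩ := h6 ε hε
        refine ⟨N, fun n hn => ?_⟩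
        have h7 := h1 _ (Γ.sub_mem (hy n) (hy N))
        have h8 := hN n hn
        rw [dist_eq_norm] at h8 ⊢
        change ‖u n - u N‖ = ‖y n - y N‖ at h7
        rwa [← h7]
      obtain ⟨z, hz⟩ := cauchySeq_tendsto_of_complete h5
      refine ⟨(x, z), ?_, rfl⟩
      exact mem_closure_of_tendsto (hu2.prodMk_nhds hz) (Eventually.of_forall hy)
  · apply le_antisymm
    · rintro _ ⟨p, hp, rfl⟩
      have h4 : (LinearMap.snd ℝ H H) '' closure (Γ : Set (H × H)) ⊆
          closure ((LinearMap.snd ℝ H H) '' (Γ : Set (H × H))) :=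
        image_closure_subset_closure_image continuous_snd
      have h5 := h4 ⟨p, hp, rfl⟩
      have h6 : (LinearMap.snd ℝ H H) '' (Γ : Set (H × H)) = (X : Set H) := by
        rw [← h3]
        rfl
      rw [h6] at h5
      exact h5
    · intro x hx
      obtain ⟨u, hu1, hu2⟩ := mem_closure_iff_seq_limit.1 (show x ∈ closure (X : Set H) from hx)
      have h4 : ∀ n, ∃ y, (y, u n) ∈ Γ := by
        intro n
        have h5 : u n ∈ Γ.map (LinearMap.snd ℝ H H) := by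
          rw [h3]
          exact hu1 n
        obtain ⟨p, hp, h6⟩ := h5
        refine ⟨p.1, ?_⟩
        have : (p.1, u n) = p := Prod.ext rfl h6.symm
        rw [this]
        exact hp
      choose y hy using h4
      have h5 : CauchySeq y := by
        have h6 := hu2.cauchySeq
        rw [Metric.cauchySeq_iff'] at h6 ⊢
        intro ε hε
        obtain ⟨N, hN⟩ := h6 ε hε
        refine ⟨N, fun n hn => ?_⟩
        have h7 := h1 _ (Γ.sub_mem (hy n) (hy N))
        have h8 := hN n hn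
        rw [dist_eq_norm] at h8 ⊢
        change ‖y n - y N‖ = ‖u n - u N‖ at h7
        rwa [h7]
      obtain ⟨z, hz⟩ := cauchySeq_tendsto_of_complete h5
      refine ⟨(z, x), ?_, rfl⟩
      exact mem_closure_of_tendsto (hz.prodMk_nhds hu2) (Eventually.of_forall hy)

/-- Directed unions of graphs. -/
theorem isoGraph_iSup {ι : Type} [Nonempty ι] {X : ι → Submodule ℝ H}
    {Γ : ι → Submodule ℝ (H × H)} (h : ∀ i, IsoGraph (X i) (Γ i)) (hd : Directed (· ≤ ·) Γ) :
    IsoGraph (⨆ i, X i) (⨆ i, Γ i) := by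
  refine ⟨?_, ?_, ?_⟩
  · intro p hp
    obtain ⟨i, hi⟩ := (Submodule.mem_iSup_of_directed Γ hd).1 hp
    exact (h i).1 p hi
  · rw [Submodule.map_iSup]
    exact iSup_congr fun i => (h i).2.1
  · rw [Submodule.map_iSup]
    exact iSup_congr fun i => (h i).2.2

end Pool.Agent.R278.Hom
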