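import Mathlib

/-!
# Trees of copies of a Banach space glued along finite-dimensional partial isometries
-/

open Set Filter Topology
open scoped ENNReal

namespace Pool.Agent.R278.Hom

universe u

section HB

variable {X : Type u} [NormedAddCommGroup X] [NormedSpace ℝ X]

/-- Hahn–Banach with finitely many prescribed values. -/
theorem hb_values {ι : Type*} [Fintype ι] (w : ι → X) (c : ι → ℝ)
    (h : ∀ a : ι → ℝ, |∑ i, a i * c i| ≤ ‖∑ i, a i • w i‖) :
    ∃ Ψ : X →L[ℝ] ℝ, ‖Ψ‖ ≤ 1 ∧ ∀ i, Ψ (w i) = c i := by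
  classical
  set U : (ι → ℝ) →ₗ[ℝ] X := Fintype.linearCombination ℝ w with hU
  have hUa : ∀ a, U a = ∑ i, a i • w i := fun a => Fintype.linearCombination_apply ℝ w a
  obtain ⟨s, hs⟩ := LinearMap.exists_rightInverse_of_surjective U.rangeRestrict
    (LinearMap.range_eq_top.2 (LinearMap.surjective_rangeRestrict U))
  have hs' : ∀ y : LinearMap.range U, U (s y) = y := by
    intro y
    have := LinearMap.congr_fun hs y
    exact congrArg Subtype.val this
  set C : (ι → ℝ) →ₗ[ℝ] ℝ := Fintype.linearCombination ℝ c with hC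
  have hCa : ∀ a, C a = ∑ i, a i * c i := fun a => Fintype.linearCombination_apply ℝ c a
  have hb : ∀ a, |C a| ≤ ‖U a‖ := fun a => by rw [hCa, hUa]; exact h a
  set g : LinearMap.range U →L[ℝ] ℝ := LinearMap.mkContinuous (C.comp s) 1 (fun y => by
    have := hb (s y)
    rw [hs' y] at this
    rw [one_mul]
    exact this) with hg
  obtain ⟨Ψ, h1, h2⟩ := exists_extension_norm_eq (LinearMap.range U) g
  refine ⟨Ψ, ?_, fun i => ?_⟩
  · rw [h2]
    exact LinearMap.mkContinuous_norm_le _ zero_le_one _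
  · have h3 : U (Pi.single i 1) = w i := by
      rw [hUa]
      simp [Pi.single_apply]
    have h4 : C (Pi.single i 1) = c i := by
      rw [hCa]
      simp [Pi.single_apply]
    set y : LinearMap.range U := ⟨w i, ⟨Pi.single i 1, h3⟩⟩ with hy
    have h5 := h1 y
    have h6 : g y = C (s y) := rfl
    have h7 : C (s y - Pi.single i 1) = 0 := by
      have := hb (s y - Pi.single i 1)
      rw [map_sub U, hs', h3, hy, sub_self, norm_zero] at this
      exact abs_eq_zero.1 (le_antisymm this (abs_nonneg _))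
    rw [map_sub, h4, sub_eq_zero] at h7
    rw [← h7, ← h6, ← h5]

theorem exists_transport {n : ℕ} (w v : Fin n → X)
    (iso : ∀ a : Fin n → ℝ, ‖∑ i, a i • w i‖ = ‖∑ i, a i • v i‖) (Φ : X →L[ℝ] ℝ)
    (hΦ : ‖Φ‖ ≤ 1) : ∃ Ψ : X →L[ℝ] ℝ, ‖Ψ‖ ≤ 1 ∧ ∀ i, Ψ (w i) = Φ (v i) := by
  refine hb_values w (fun i => Φ (v i)) fun a => ?_
  have h1 : ∑ i, a i * Φ (v i) = Φ (∑ i, a i • v i) := by
    rw [map_sum]
    simp
  rw [h1, iso, ← Real.norm_eq_abs]
  refine (Φ.le_opNorm _).trans ?_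
  nlinarith [norm_nonneg (∑ i, a i • v i)]

/-- `e` is a free sequence over the vector `y`. -/
def Free (e : ℕ → X) (y : X) : Prop := Tendsto (fun n => ‖y + e n‖) atTop (𝓝 (‖y‖ + 1))

omit [NormedSpace ℝ X] in
theorem isClosed_free (e : ℕ → X) : IsClosed {y | Free e y} := by
  rw [← closure_subset_iff_isClosed]
  intro y hy
  rw [Metric.mem_closure_iff] at hy
  change Tendsto _ _ _
  rw [Metric.tendsto_atTop]
  intro ε hε
  obtain ⟨z, hz, hyz⟩ := hy (ε / 3) (by positivity)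
  have hz' : Tendsto (fun n => ‖z + e n‖) atTop (𝓝 (‖z‖ + 1)) := hz
  rw [Metric.tendsto_atTop] at hz'
  obtain ⟨N, hN⟩ := hz' (ε / 3) (by positivity)
  refine ⟨N, fun n hn => ?_⟩
  have h1 := hN n hn
  rw [Real.dist_eq] at h1 ⊢
  rw [dist_eq_norm] at hyz
  have h2 : |‖y + e n‖ - ‖z + e n‖| ≤ ‖y - z‖ := by
    have := abs_norm_sub_norm_le (y + e n) (z + e n)
    rwa [add_sub_add_right_eq_sub] at this
  have h3 := abs_norm_sub_norm_le y z
  have h2' := abs_le.1 h2
  have h3' := abs_le.1 h3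
  have h1' := abs_lt.1 h1
  rw [abs_lt]
  constructor <;> linarith [h2'.1, h2'.2, h3'.1, h3'.2, h1'.1, h1'.2]

/-- Uniform freeness over a finite-dimensional subspace. -/
theorem free_unif {e : ℕ → X} (he : ∀ n, ‖e n‖ ≤ 1) (E : Submodule ℝ X) [FiniteDimensional ℝ E]
    (hE : ∀ y ∈ E, Free e y) {ε : ℝ} (hε : 0 < ε) (hε1 : ε < 1) :
    ∀ᶠ n in atTop, ∀ y ∈ E, (1 - ε) * (‖y‖ + 1) ≤ ‖y + e n‖ := by
  have : ProperSpace E := FiniteDimensional.proper_real E
  have hK : IsCompact (Metric.closedBall (0 : E) (2 / ε)) := isCompact_closedBall _ _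
  obtain ⟨t, -, htf, ht⟩ := hK.finite_cover_balls (show 0 < ε / 4 by positivity)
  have h1 : ∀ z ∈ t, ∀ᶠ n in atTop, ‖(z : X)‖ + 1 - ε / 4 < ‖(z : X) + e n‖ := by
    intro z _
    exact (hE z z.2).eventually_const_lt (by linarith)
  have h2 := (htf.eventually_all).2 h1
  refine h2.mono fun n hn y hy => ?_
  have hen := he n
  by_cases hy2 : ‖y‖ ≤ 2 / ε
  · have h3 : (⟨y, hy⟩ : E) ∈ Metric.closedBall (0 : E) (2 / ε) := by
      rw [mem_closedBall_zero_iff]
      exact hy2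
    have h4 := ht h3
    simp only [mem_iUnion, Metric.mem_ball] at h4
    obtain ⟨z, hz, hyz⟩ := h4
    have h5 := hn z hz
    have h6 : ‖y - z‖ < ε / 4 := by
      rw [dist_eq_norm] at hyz
      exact hyz
    have h7 : |‖y + e n‖ - ‖(z : X) + e n‖| ≤ ‖y - z‖ := by
      have := abs_norm_sub_norm_le (y + e n) (z + e n)
      rwa [add_sub_add_right_eq_sub] at this
    have h8 := abs_norm_sub_norm_le y (z : X)
    have h7' := abs_le.1 h7
    have h8' := abs_le.1 h8
    nlinarith [norm_nonneg y, h7'.1, h8'.2]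
  · push Not at hy2
    have h3 : ‖y‖ - ‖e n‖ ≤ ‖y + e n‖ := by
      have := norm_sub_norm_le y (-(e n))
      rwa [norm_neg, sub_neg_eq_add] at this
    have h4 : 2 < ‖y‖ * ε := by rwa [div_lt_iff₀ hε] at hy2
    nlinarith

/-- Changing the value at a free vector, scaling the values on a finite-dimensional subspace. -/
theorem free_dual {e : ℕ → X} (he : ∀ n, ‖e n‖ ≤ 1) (E : Submodule ℝ X) [FiniteDimensional ℝ E]
    (hE : ∀ y ∈ E, Free e y) {ε : ℝ} (hε : 0 < ε) (hε1 : ε < 1) :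
    ∀ᶠ n in atTop, ∀ Φ : X →L[ℝ] ℝ, ‖Φ‖ ≤ 1 → ∃ Ψ : X →L[ℝ] ℝ, ‖Ψ‖ ≤ 1 ∧
      (∀ y ∈ E, Ψ y = (1 - ε) * Φ y) ∧ Ψ (e n) = 1 - ε := by
  have hfree : Module.Free ℝ E := Module.Free.of_divisionRing ℝ E
  obtain ⟨k, ⟨b⟩⟩ : ∃ k, Nonempty (Module.Basis (Fin k) ℝ E) := ⟨_, ⟨Module.finBasis ℝ E⟩⟩
  refine (free_unif he E hE hε hε1).mono fun n hn Φ hΦ => ?_
  obtain ⟨Ψ, h1, h2⟩ := hb_values (ι := Option (Fin k))
    (fun o => o.elim (e n) fun i => (b i : X))
    (fun o => o.elim (1 - ε) fun i => (1 - ε) * Φ (b i)) (by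
      intro a
      rw [Fintype.sum_option, Fintype.sum_option]
      simp only [Option.elim_none, Option.elim_some]
      set y : X := ∑ i, a (some i) • (b i : X) with hy
      have hyE : y ∈ E := Submodule.sum_mem _ fun i _ => Submodule.smul_mem _ _ (b i).2
      set s : ℝ := a none with hs
      have h3 : ∑ i, a (some i) * ((1 - ε) * Φ (b i : X)) = (1 - ε) * Φ y := by
        rw [hy, map_sum, Finset.mul_sum]
        refine Finset.sum_congr rfl fun i _ => ?_
        rw [map_smul, smul_eq_mul]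
        ring
      rw [h3]
      have h4 : |Φ y| ≤ ‖y‖ := by
        rw [← Real.norm_eq_abs]
        refine (Φ.le_opNorm _).trans ?_
        nlinarith [norm_nonneg y]
      have h5 : |s * (1 - ε) + (1 - ε) * Φ y| ≤ (1 - ε) * (‖y‖ + |s|) := by
        have : s * (1 - ε) + (1 - ε) * Φ y = (1 - ε) * (s + Φ y) := by ring
        rw [this, abs_mul, abs_of_pos (by linarith : 0 < 1 - ε)]
        refine mul_le_mul_of_nonneg_left ?_ (by linarith)
        exact (abs_add_le _ _).trans (by linarith)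
      refine h5.trans ?_
      rcases eq_or_ne s 0 with hs0 | hs0
      · rw [hs0, zero_smul, zero_add, abs_zero, add_zero]
        nlinarith [norm_nonneg y]
      · have h6 := hn (s⁻¹ • y) (Submodule.smul_mem _ _ hyE)
        have h7 : s • e n + y = s • (s⁻¹ • y + e n) := by
          rw [smul_add, smul_smul, mul_inv_cancel₀ hs0, one_smul, add_comm]
        rw [h7, norm_smul, Real.norm_eq_abs]
        have h8 : ‖y‖ = |s| * ‖s⁻¹ • y‖ := by
          rw [norm_smul, norm_inv, Real.norm_eq_abs, ← mul_assoc,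
            mul_inv_cancel₀ (abs_ne_zero.2 hs0), one_mul]
        rw [h8]
        have h9 : 0 < |s| := abs_pos.2 hs0
        nlinarith)
  refine ⟨Ψ, h1, fun y hy => ?_, h2 none⟩
  have h3 : (⟨y, hy⟩ : E) = ∑ i, b.repr ⟨y, hy⟩ i • b i := (b.sum_repr _).symm
  have h4 : y = ∑ i, b.repr ⟨y, hy⟩ i • (b i : X) := by
    have h5 := congrArg Subtype.val h3
    rw [Submodule.coe_sum] at h5
    exact h5
  rw [h4, map_sum, map_sum, Finset.mul_sum]
  refine Finset.sum_congr rfl fun i _ => ?_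
  rw [map_smul, map_smul, smul_eq_mul, smul_eq_mul]
  have h5 := h2 (some i)
  simp only [Option.elim_some] at h5
  rw [h5]
  ring

end HB

section Families

variable (X : Type u) [NormedAddCommGroup X] [NormedSpace ℝ X]

/-- The letters: partial isometries between finite-dimensional subspaces. -/
structure Lt : Type u where
  /-- the number of vectors -/
  n : ℕ
  /-- the source vectors -/
  s : Fin n → X
  /-- the target vectors -/
  v : Fin n → X
  iso : ∀ a : Fin n → ℝ, ‖∑ i, a i • s i‖ = ‖∑ i, a i • v i‖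

/-- The vertices. -/
abbrev GG : Type u := FreeGroup (Lt X)

/-- Coherent families of functionals. -/
abbrev Fam : Type u := {Φ : GG X → (X →L[ℝ] ℝ) // (∀ h, ‖Φ h‖ ≤ 1) ∧
  ∀ h (l : Lt X) (i : Fin l.n), Φ (FreeGroup.of l * h) (l.s i) = Φ h (l.v i)}

variable {X}

theorem exists_ext (x : Lt X × Bool) (Φ : X →L[ℝ] ℝ) : ∃ Ψ : X →L[ℝ] ℝ, ‖Φ‖ ≤ 1 → ‖Ψ‖ ≤ 1 ∧
    (x.2 = true → ∀ i, Ψ (x.1.s i) = Φ (x.1.v i)) ∧
    (x.2 = false → ∀ i, Ψ (x.1.v i) = Φ (x.1.s i)) := by
  by_cases h : ‖Φ‖ ≤ 1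
  · rcases x with ⟨l, b⟩
    cases b with
    | true =>
      obtain ⟨Ψ, h1, h2⟩ := exists_transport l.s l.v l.iso Φ h
      exact ⟨Ψ, fun _ => ⟨h1, fun _ => h2, fun h' => absurd h' (by simp)⟩⟩
    | false =>
      obtain ⟨Ψ, h1, h2⟩ := exists_transport l.v l.s (fun a => (l.iso a).symm) Φ h
      exact ⟨Ψ, fun _ => ⟨h1, fun h' => absurd h' (by simp), fun _ => h2⟩⟩
  · exact ⟨0, fun h' => absurd h' h⟩

/-- Transport of a functional along an edge. -/
noncomputable def tr (x : Lt X × Bool) (Φ : X →L[ℝ] ℝ) : X →L[ℝ] ℝ := (exists_ext x Φ).choose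

theorem tr_norm (x : Lt X × Bool) {Φ : X →L[ℝ] ℝ} (h : ‖Φ‖ ≤ 1) : ‖tr x Φ‖ ≤ 1 :=
  ((exists_ext x Φ).choose_spec h).1

theorem tr_true (l : Lt X) {Φ : X →L[ℝ] ℝ} (h : ‖Φ‖ ≤ 1) (i : Fin l.n) :
    tr (l, true) Φ (l.s i) = Φ (l.v i) :=
  ((exists_ext (l, true) Φ).choose_spec h).2.1 rfl i

theorem tr_false (l : Lt X) {Φ : X →L[ℝ] ℝ} (h : ‖Φ‖ ≤ 1) (i : Fin l.n) :
    tr (l, false) Φ (l.v i) = Φ (l.s i) :=
  ((exists_ext (l, false) Φ).choose_spec h).2.2 rfl i

open Classical in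
/-- The functionals attached to the words. -/
noncomputable def wf (S : Set (List (Lt X × Bool))) (c : ℝ) (Φ : GG X → (X →L[ℝ] ℝ))
    (Φ₀ : X →L[ℝ] ℝ) : List (Lt X × Bool) → (X →L[ℝ] ℝ)
  | [] => Φ₀
  | x :: w => if (x :: w) ∈ S then c • Φ (FreeGroup.mk (x :: w)) else tr x (wf S c Φ Φ₀ w)

open Classical in
theorem exists_fam (Φ : Fam X) {c : ℝ} (hc0 : 0 ≤ c) (hc1 : c ≤ 1)
    (S : Set (List (Lt X × Bool))) (hS : ∀ x w, x :: w ∈ S → w ∈ S ∨ w = [])
    {Φ₀ : X →L[ℝ] ℝ} (hΦ₀ : ‖Φ₀‖ ≤ 1)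
    (h1 : ∀ l, [(l, true)] ∈ S → ∀ i, Φ₀ (l.v i) = c * Φ.1 1 (l.v i))
    (h2 : ∀ l, [(l, false)] ∈ S → ∀ i, Φ₀ (l.s i) = c * Φ.1 1 (l.s i)) :
    ∃ Φ' : Fam X, Φ'.1 1 = Φ₀ ∧ ∀ h : GG X, h ≠ 1 → h.toWord ∈ S → Φ'.1 h = c • Φ.1 h := by
  have hn : ∀ w, ‖wf S c Φ.1 Φ₀ w‖ ≤ 1 := by
    intro w
    induction w with
    | nil => exact hΦ₀
    | cons x w ih =>
      rw [wf]
      split_ifs with h
      · rw [norm_smul, Real.norm_eq_abs, abs_of_nonneg hc0]
        have := Φ.2.1 (FreeGroup.mk (x :: w))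
        nlinarith [norm_nonneg (Φ.1 (FreeGroup.mk (x :: w)))]
      · exact tr_norm x ih
  have hin : ∀ x w, x :: w ∈ S → w ≠ [] → wf S c Φ.1 Φ₀ w = c • Φ.1 (FreeGroup.mk w) := by
    intro x w hxw hw
    have hwS : w ∈ S := (hS x w hxw).resolve_right hw
    cases w with
    | nil => exact absurd rfl hw
    | cons y w' => rw [wf, if_pos hwS]
  refine ⟨⟨fun h => wf S c Φ.1 Φ₀ h.toWord, fun h => hn _, ?_⟩, ?_, ?_⟩
  · intro h l i
    change wf S c Φ.1 Φ₀ (FreeGroup.of l * h).toWord (l.s i) = wf S c Φ.1 Φ₀ h.toWord (l.v i)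
    have hmk : FreeGroup.of l * h = FreeGroup.mk ((l, true) :: h.toWord) := by
      conv_lhs => rw [← FreeGroup.mk_toWord (x := h)]
      rw [FreeGroup.of, FreeGroup.mul_mk]
      rfl
    have hred : (FreeGroup.of l * h).toWord = FreeGroup.reduce ((l, true) :: h.toWord) := by
      rw [hmk, FreeGroup.toWord_mk]
    rw [FreeGroup.reduce.cons, FreeGroup.reduce_toWord] at hred
    have hcoh := Φ.2.2 h l i
    have hmkh : FreeGroup.mk h.toWord = h := FreeGroup.mk_toWord
    cases hw : h.toWord with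
    | nil =>
      have h3 : (FreeGroup.of l * h).toWord = [(l, true)] := by rw [hred, hw]
      rw [h3]
      have h7 : wf S c Φ.1 Φ₀ [] = Φ₀ := rfl
      rw [h7, wf]
      split_ifs with h5
      · have h6 : FreeGroup.mk [(l, true)] = FreeGroup.of l * 1 := by rw [mul_one]; rfl
        rw [h6, smul_apply, smul_eq_mul, Φ.2.2 1 l i]
        exact (h1 l h5 i).symm
      · exact tr_true l (hn []) i
    | cons y w =>
      rw [hw] at hred hmk hmkh
      simp only at hred
      by_cases hcase : l = y.1 ∧ true = !y.2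
      · rw [if_pos hcase] at hred
        have hy : y = (l, false) := by
          have h8 : y.2 = false := by
            have := hcase.2
            cases hy2 : y.2 with
            | false => rfl
            | true => rw [hy2] at this; exact absurd this (by decide)
          exact Prod.ext hcase.1.symm h8
        rw [hred]
        have hmk2 : FreeGroup.mk w = FreeGroup.of l * h := by
          rw [← FreeGroup.mk_toWord (x := FreeGroup.of l * h), hred]
        rw [hy]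
        rw [hy] at hmkh
        conv_rhs => rw [wf]
        split_ifs with h5
        · rw [smul_apply, smul_eq_mul, hmkh, ← hcoh]
          by_cases hw0 : w = []
          · subst hw0
            rw [wf]
            have h6 : FreeGroup.of l * h = 1 := by rw [← hmk2]; rfl
            rw [h6]
            exact h2 l h5 i
          · rw [hin _ _ h5 hw0, hmk2]
            rfl
        · exact (tr_false l (hn w) i).symm
      · rw [if_neg hcase] at hred
        rw [hred]
        conv_lhs => rw [wf]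
        split_ifs with h5
        · have h6 : wf S c Φ.1 Φ₀ (y :: w) = c • Φ.1 h := by
            rw [hin _ _ h5 (by simp), hmkh]
          rw [h6, ← hmk, smul_apply, smul_apply, hcoh]
        · exact tr_true l (hn _) i
  · change wf S c Φ.1 Φ₀ (1 : GG X).toWord = Φ₀
    rw [FreeGroup.toWord_one]
    rfl
  · intro h hh hS'
    change wf S c Φ.1 Φ₀ h.toWord = c • Φ.1 h
    have hmkh : FreeGroup.mk h.toWord = h := FreeGroup.mk_toWord
    cases hw : h.toWord with
    | nil => exact absurd (FreeGroup.toWord_eq_nil_iff.1 hw) hh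
    | cons y w =>
      rw [hw] at hS' hmkh
      rw [wf, if_pos hS', hmkh]

/-- The zero family. -/
instance : Inhabited (Fam X) := ⟨⟨fun _ => 0, fun _ => by simp, fun _ _ _ => rfl⟩⟩

theorem exists_fam_one {Φ₀ : X →L[ℝ] ℝ} (hΦ₀ : ‖Φ₀‖ ≤ 1) : ∃ Φ' : Fam X, Φ'.1 1 = Φ₀ := by
  obtain ⟨Φ', h, -⟩ := exists_fam (default : Fam X) (c := 0) le_rfl zero_le_one ∅
    (fun _ _ h => absurd h (by simp)) hΦ₀ (fun _ h => absurd h (by simp))
    (fun _ h => absurd h (by simp))
  exact ⟨Φ', h⟩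

end Families

end Pool.Agent.R278.Hom
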